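import Mathlib

/-! Configurations of poles for which the minima of the sum of the inverse squares between
consecutive poles are prescribed. -/

open Filter Topology

noncomputable section

namespace Pool.Agent.KS6_57.CU

variable {N : ℕ}

/-- sum of the inverse squares -/
def PP (w : Fin (N + 1) → ℝ) (u : ℝ) : ℝ := ∑ k, 1 / (u - w k) ^ 2

/-- feasible configurations -/
def Feas (c : Fin N → ℝ) (w : Fin (N + 1) → ℝ) : Prop :=
  Monotone w ∧ ∀ i : Fin N, ∀ u, w i.castSucc < u → u < w i.succ → c i ≤ PP w u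

lemma key_out {x y ε : ℝ} (hε : 0 < ε) (hy : ε < y) (hxy : y ≤ x) :
    1 / y ^ 2 + 1 / x ^ 2 ≤ 1 / (y - ε) ^ 2 + 1 / (x + ε) ^ 2 := by
  have hy0 : 0 < y := hε.trans hy
  have hx0 : 0 < x := hy0.trans_le hxy
  have hye : 0 < y - ε := by linarith
  have hxe : 0 < x + ε := by linarith
  have h1 : 2 * ε / y ^ 3 ≤ 1 / (y - ε) ^ 2 - 1 / y ^ 2 := by
    have : 1 / (y - ε) ^ 2 - 1 / y ^ 2 = ε * (2 * y - ε) * y / (y ^ 3 * (y - ε) ^ 2) := by
      field_simp
      ring
    rw [this, div_le_div_iff₀ (by positivity) (by positivity)]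
    have h : 0 ≤ ε * y ^ 3 * (ε * (3 * y - 2 * ε)) := by
      have : 0 ≤ 3 * y - 2 * ε := by linarith
      positivity
    nlinarith [h]
  have h2 : 1 / x ^ 2 - 1 / (x + ε) ^ 2 ≤ 2 * ε / x ^ 3 := by
    have : 1 / x ^ 2 - 1 / (x + ε) ^ 2 = ε * (2 * x + ε) * x / (x ^ 3 * (x + ε) ^ 2) := by
      field_simp
      ring
    rw [this, div_le_div_iff₀ (by positivity) (by positivity)]
    have h : 0 ≤ ε * x ^ 3 * (ε * (3 * x + 2 * ε)) := by positivity
    nlinarith [h]
  have h3 : 2 * ε / x ^ 3 ≤ 2 * ε / y ^ 3 := by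
    apply div_le_div_of_nonneg_left (by positivity) (by positivity)
    exact pow_le_pow_left₀ hy0.le hxy 3
  linarith

lemma key_mid {d ε : ℝ} (hε : 0 < ε) (hd : 1 / 4 ≤ d) :
    1 / d ^ 2 - 1 / (d + ε) ^ 2 ≤ 128 * ε := by
  have hx0 : 0 < d := by linarith
  have h2 : 1 / d ^ 2 - 1 / (d + ε) ^ 2 ≤ 2 * ε / d ^ 3 := by
    have : 1 / d ^ 2 - 1 / (d + ε) ^ 2 = ε * (2 * d + ε) * d / (d ^ 3 * (d + ε) ^ 2) := by
      field_simp
      ring
    rw [this, div_le_div_iff₀ (by positivity) (by positivity)]
    have h : 0 ≤ ε * d ^ 3 * (ε * (3 * d + 2 * ε)) := by positivity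
    nlinarith [h]
  have h3 : 2 * ε / d ^ 3 ≤ 128 * ε := by
    rw [div_le_iff₀ (by positivity)]
    have : (1 / 4 : ℝ) ^ 3 ≤ d ^ 3 := pow_le_pow_left₀ (by norm_num) hd 3
    nlinarith
  linarith

/-- moving two poles outward -/
def mv (w : Fin (N + 1) → ℝ) (a b : Fin (N + 1)) (ε : ℝ) : Fin (N + 1) → ℝ :=
  fun k => if k = a then w a - ε else if k = b then w b + ε else w k

lemma PP_mv (w : Fin (N + 1) → ℝ) (a b : Fin (N + 1)) (hab : a ≠ b) (ε u : ℝ) :
    PP (mv w a b ε) u = PP w u + (1 / (u - w a + ε) ^ 2 - 1 / (u - w a) ^ 2) +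
      (1 / (u - w b - ε) ^ 2 - 1 / (u - w b) ^ 2) := by
  have h : ∑ k, (1 / (u - mv w a b ε k) ^ 2 - 1 / (u - w k) ^ 2) =
      (1 / (u - mv w a b ε a) ^ 2 - 1 / (u - w a) ^ 2) +
      (1 / (u - mv w a b ε b) ^ 2 - 1 / (u - w b) ^ 2) := by
    apply Fintype.sum_eq_add a b hab
    rintro x ⟨h1, h2⟩
    simp [mv, h1, h2]
  rw [Finset.sum_sub_distrib] at h
  have e1 : mv w a b ε a = w a - ε := by simp [mv]
  have e2 : mv w a b ε b = w b + ε := by simp [mv, hab.symm]
  rw [e1, e2, show u - (w a - ε) = u - w a + ε by ring, show u - (w b + ε) = u - w b - ε by ring]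
    at h
  unfold PP
  linarith

lemma sum_mv (w : Fin (N + 1) → ℝ) (a b : Fin (N + 1)) (hab : a ≠ b) (ε : ℝ) :
    ∑ k : Fin (N + 1), (k : ℕ) * mv w a b ε k =
      ∑ k : Fin (N + 1), (k : ℕ) * w k + ε * ((b : ℕ) - (a : ℕ)) := by
  have h : ∑ k : Fin (N + 1), ((k : ℕ) * mv w a b ε k - (k : ℕ) * w k) =
      ((a : ℕ) * mv w a b ε a - (a : ℕ) * w a) + ((b : ℕ) * mv w a b ε b - (b : ℕ) * w b) := by
    apply Fintype.sum_eq_add a b hab
    rintro x ⟨h1, h2⟩
    simp [mv, h1, h2]
  rw [Finset.sum_sub_distrib] at h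
  have e1 : mv w a b ε a = w a - ε := by simp [mv]
  have e2 : mv w a b ε b = w b + ε := by simp [mv, hab.symm]
  rw [e1, e2] at h
  linarith

lemma le_PP (w : Fin (N + 1) → ℝ) (u : ℝ) (k : Fin (N + 1)) : 1 / (u - w k) ^ 2 ≤ PP w u := by
  unfold PP
  exact Finset.single_le_sum (f := fun k => 1 / (u - w k) ^ 2) (fun k _ => by positivity)
    (Finset.mem_univ k)

lemma fin_le_or (i : Fin N) (k : Fin (N + 1)) : k ≤ i.castSucc ∨ i.succ ≤ k := by
  rw [Fin.le_def, Fin.le_def]
  simp
  omega

lemma ne_pole {w : Fin (N + 1) → ℝ} (hw : Monotone w) {i : Fin N} {u : ℝ}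
    (h1 : w i.castSucc < u) (h2 : u < w i.succ) (k : Fin (N + 1)) : u ≠ w k := by
  rcases fin_le_or i k with h | h
  · exact ((hw h).trans_lt h1).ne'
  · exact (h2.trans_le (hw h)).ne

lemma continuousAt_PP {w : Fin (N + 1) → ℝ} {u : ℝ} (h : ∀ k, u ≠ w k) :
    ContinuousAt (PP w) u := by
  unfold PP
  apply tendsto_finsetSum
  intro k _
  have : u - w k ≠ 0 := sub_ne_zero.2 (h k)
  have h2 : (u - w k) ^ 2 ≠ 0 := pow_ne_zero 2 this
  exact ContinuousAt.div (by fun_prop) (by fun_prop) h2

lemma perturb (c : Fin N → ℝ) (hc : ∀ i, c i ≤ 4) (w : Fin (N + 1) → ℝ) (hw : Feas c w)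
    (i : Fin N) (hs : ∀ u, w i.castSucc < u → u < w i.succ → c i < PP w u) :
    ∃ a b : Fin (N + 1), a < b ∧ ∃ ε : ℝ, 0 < ε ∧ Feas c (mv w a b ε) := by
  obtain ⟨hmono, hfe⟩ := hw
  set α := w i.castSucc with hα
  set β := w i.succ with hβ
  have hαβ : α ≤ β := hmono (by rw [Fin.le_def]; simp)
  -- the indices
  obtain ⟨a, ha, ha'⟩ : ∃ a, w a = α ∧ ∀ k, k < a → w k < α := by
    obtain ⟨a, ha, hmin⟩ := Finset.exists_min_image
      (Finset.univ.filter (fun k => w k = α)) id ⟨i.castSucc, by simp [hα]⟩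
    have haα : w a = α := by simpa using ha
    refine ⟨a, haα, fun k hk => lt_of_le_of_ne ((hmono hk.le).trans haα.le) ?_⟩
    intro hkα
    exact absurd (hmin k (by simpa using hkα)) (not_le.2 hk)
  obtain ⟨b, hb, hb'⟩ : ∃ b, w b = β ∧ ∀ k, b < k → β < w k := by
    obtain ⟨b, hb, hmax⟩ := Finset.exists_max_image
      (Finset.univ.filter (fun k => w k = β)) id ⟨i.succ, by simp [hβ]⟩
    have hbβ : w b = β := by simpa using hb
    refine ⟨b, hbβ, fun k hk => lt_of_le_of_ne (hbβ.ge.trans (hmono hk.le)) ?_⟩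
    intro hkβ
    exact absurd (hmax k (by simpa using hkβ.symm)) (not_le.2 hk)
  have hai : a ≤ i.castSucc := by
    by_contra h
    push Not at h
    exact absurd (ha' _ h) (lt_irrefl _)
  have hib : i.succ ≤ b := by
    by_contra h
    push Not at h
    exact absurd (hb' _ h) (lt_irrefl _)
  have hab : a < b := by
    apply lt_of_le_of_lt hai (lt_of_lt_of_le _ hib)
    rw [Fin.lt_def]
    simp
  have hne : a ≠ b := hab.ne
  refine ⟨a, b, hab, ?_⟩
  -- uniform slack in the middle
  obtain ⟨δ, hδ, hδ'⟩ : ∃ δ : ℝ, 0 < δ ∧ ∀ u ∈ Set.Icc (α + 1 / 4) (β - 1 / 4),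
      c i + δ ≤ PP w u := by
    rcases (Set.Icc (α + 1 / 4) (β - 1 / 4)).eq_empty_or_nonempty with he | hne
    · exact ⟨1, one_pos, fun u hu => absurd hu (by rw [he]; simp)⟩
    · have hcont : ContinuousOn (PP w) (Set.Icc (α + 1 / 4) (β - 1 / 4)) := by
        intro u hu
        apply (continuousAt_PP _).continuousWithinAt
        intro k
        exact ne_pole hmono (i := i) (by rw [← hα]; linarith [hu.1]) (by rw [← hβ]; linarith [hu.2]) k
      obtain ⟨u0, hu0, hmin⟩ := isCompact_Icc.exists_isMinOn hne hcont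
      refine ⟨PP w u0 - c i, ?_, ?_⟩
      · have := hs u0 (by linarith [hu0.1]) (by linarith [hu0.2])
        linarith
      · intro u hu
        have := hmin hu
        simp only [Set.mem_ofPred_eq] at this
        linarith
  -- the choice of `ε`
  obtain ⟨ε, hε, hε4, hεδ, hεa, hεb⟩ : ∃ ε : ℝ, 0 < ε ∧ ε ≤ 1 / 4 ∧ 256 * ε ≤ δ ∧
      (∀ k, w k < α → w k < α - ε) ∧ (∀ k, β < w k → β + ε < w k) := by
    have e0 : ∀ᶠ ε : ℝ in 𝓝[>] 0, 0 < ε := eventually_mem_nhdsWithin
    have e1 : ∀ᶠ ε : ℝ in 𝓝[>] 0, ε ≤ 1 / 4 :=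
      eventually_nhdsWithin_of_eventually_nhds (Iic_mem_nhds (by norm_num))
    have e2 : ∀ᶠ ε : ℝ in 𝓝[>] 0, ε ≤ δ / 256 :=
      eventually_nhdsWithin_of_eventually_nhds (Iic_mem_nhds (by positivity))
    have e3 : ∀ᶠ ε : ℝ in 𝓝[>] 0, ∀ k, w k < α → w k < α - ε := by
      rw [eventually_all]
      intro k
      by_cases h : w k < α
      · have : ∀ᶠ ε : ℝ in 𝓝[>] 0, ε < α - w k :=
          eventually_nhdsWithin_of_eventually_nhds (Iio_mem_nhds (by linarith))
        filter_upwards [this] with ε hε _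
        linarith
      · filter_upwards with ε h2
        exact absurd h2 h
    have e4 : ∀ᶠ ε : ℝ in 𝓝[>] 0, ∀ k, β < w k → β + ε < w k := by
      rw [eventually_all]
      intro k
      by_cases h : β < w k
      · have : ∀ᶠ ε : ℝ in 𝓝[>] 0, ε < w k - β :=
          eventually_nhdsWithin_of_eventually_nhds (Iio_mem_nhds (by linarith))
        filter_upwards [this] with ε hε _
        linarith
      · filter_upwards with ε h2
        exact absurd h2 h
    obtain ⟨ε, h0, h1, h2, h3, h4⟩ := (e0.and (e1.and (e2.and (e3.and e4)))).exists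
    exact ⟨ε, h0, h1, by linarith, h3, h4⟩
  refine ⟨ε, hε, ?_⟩
  have mva : mv w a b ε a = α - ε := by simp [mv, ha]
  have mvb : mv w a b ε b = β + ε := by simp [mv, hne.symm, hb]
  have mvo : ∀ k, k ≠ a → k ≠ b → mv w a b ε k = w k := fun k h1 h2 => by simp [mv, h1, h2]
  have hmono' : Monotone (mv w a b ε) := by
    intro k l hkl
    by_cases hka : k = a
    · subst hka
      rw [mva]
      by_cases hla : l = k
      · rw [hla, mva]
      · by_cases hlb : l = b
        · rw [hlb, mvb]
          linarith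
        · rw [mvo l hla hlb]
          have := hmono hkl
          linarith
    · by_cases hkb : k = b
      · subst hkb
        rw [mvb]
        have hla : l ≠ a := by
          rintro rfl
          exact absurd hab (not_lt.2 hkl)
        by_cases hlb : l = k
        · rw [hlb, mvb]
        · rw [mvo l hla hlb]
          exact (hεb l (hb' l (lt_of_le_of_ne hkl (Ne.symm hlb)))).le
      · rw [mvo k hka hkb]
        by_cases hla : l = a
        · rw [hla, mva]
          exact (hεa k (ha' k (lt_of_le_of_ne (hla ▸ hkl) hka))).le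
        · by_cases hlb : l = b
          · rw [hlb, mvb]
            have := hmono (hlb ▸ hkl : k ≤ b)
            linarith
          · rw [mvo l hla hlb]
            exact hmono hkl
  refine ⟨hmono', ?_⟩
  intro l u h1 h2
  have hpole := ne_pole hmono' h1 h2
  have hPP := PP_mv w a b hne ε u
  rw [ha, hb] at hPP
  rcases lt_trichotomy u (α - ε) with hu | hu | hu
  · -- far left
    have hk := key_out (x := β - u) (y := α - u) hε (by linarith) (by linarith)
    have e1 : (u - α + ε) ^ 2 = (α - u - ε) ^ 2 := by ring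
    have e2 : (u - β - ε) ^ 2 = (β - u + ε) ^ 2 := by ring
    have e3 : (u - α) ^ 2 = (α - u) ^ 2 := by ring
    have e4 : (u - β) ^ 2 = (β - u) ^ 2 := by ring
    rw [e1, e2, e3, e4] at hPP
    have g1 : w l.castSucc < u := by
      by_cases hla : l.castSucc = a
      · rw [hla, mva] at h1
        linarith
      · by_cases hlb : l.castSucc = b
        · rw [hlb, mvb] at h1
          linarith
        · rwa [mvo _ hla hlb] at h1
    have g2 : u < w l.succ := by
      by_cases hla : l.succ = a
      · rw [hla, ha]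
        linarith
      · by_cases hlb : l.succ = b
        · rw [hlb, hb]
          linarith
        · rwa [mvo _ hla hlb] at h2
    have := hfe l u g1 g2
    linarith
  · exact absurd (hu.trans mva.symm) (hpole a)
  · rcases le_or_gt u (α + 1 / 4) with hu2 | hu2
    · -- near `α`
      have h3 := le_PP (mv w a b ε) u a
      rw [mva] at h3
      have h4 : 4 ≤ 1 / (u - (α - ε)) ^ 2 := by
        rw [le_div_iff₀ (by have : 0 < u - (α - ε) := by linarith
                            positivity)]
        have : (u - (α - ε)) ^ 2 ≤ (1 / 2) ^ 2 := pow_le_pow_left₀ (by linarith) (by linarith) 2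
        linarith
      linarith [hc l]
    · rcases lt_trichotomy u (β + ε) with hu3 | hu3 | hu3
      · rcases le_or_gt (β - 1 / 4) u with hu4 | hu4
        · -- near `β`
          have h3 := le_PP (mv w a b ε) u b
          rw [mvb] at h3
          have h4 : 4 ≤ 1 / (u - (β + ε)) ^ 2 := by
            rw [show (u - (β + ε)) ^ 2 = (β + ε - u) ^ 2 by ring]
            rw [le_div_iff₀ (by have : 0 < β + ε - u := by linarith
                                positivity)]
            have : (β + ε - u) ^ 2 ≤ (1 / 2) ^ 2 := pow_le_pow_left₀ (by linarith) (by linarith) 2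
            linarith
          linarith [hc l]
        · -- middle
          have hli : l = i := by
            rcases lt_trichotomy l i with h | h | h
            · exfalso
              have h5 : l.succ ≤ i.castSucc := by
                rw [Fin.le_def]
                rw [Fin.lt_def] at h
                simp
                omega
              have h6 : mv w a b ε l.succ ≤ w l.succ := by
                by_cases hla : l.succ = a
                · rw [hla, mva, ha]
                  linarith
                · have hlb : l.succ ≠ b := by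
                    intro h7
                    have := hib.trans (h7 ▸ h5)
                    rw [Fin.le_def] at this
                    simp at this
                  rw [mvo _ hla hlb]
              have h7 := hmono h5
              linarith
            · exact h
            · exfalso
              have h5 : i.succ ≤ l.castSucc := by
                rw [Fin.le_def]
                rw [Fin.lt_def] at h
                simp
                omega
              have h6 : w l.castSucc ≤ mv w a b ε l.castSucc := by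
                by_cases hlb : l.castSucc = b
                · rw [hlb, mvb, hb]
                  linarith
                · have hla : l.castSucc ≠ a := by
                    intro h7
                    have := (h7 ▸ h5 : i.succ ≤ a).trans hai
                    rw [Fin.le_def] at this
                    simp at this
                  rw [mvo _ hla hlb]
              have h7 := hmono h5
              linarith
          rw [hli]
          have h8 := hδ' u ⟨hu2.le, hu4.le⟩
          have h9 := key_mid (d := u - α) hε (by linarith)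
          have h10 := key_mid (d := β - u) hε (by linarith)
          have e2 : (u - β - ε) ^ 2 = (β - u + ε) ^ 2 := by ring
          have e4 : (u - β) ^ 2 = (β - u) ^ 2 := by ring
          rw [e2, e4] at hPP
          linarith
      · exact absurd (hu3.trans mvb.symm) (hpole b)
      · -- far right
        have hk := key_out (x := u - α) (y := u - β) hε (by linarith) (by linarith)
        have g1 : w l.castSucc < u := by
          by_cases hla : l.castSucc = a
          · rw [hla, ha]
            linarith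
          · by_cases hlb : l.castSucc = b
            · rw [hlb, hb]
              linarith
            · rwa [mvo _ hla hlb] at h1
        have g2 : u < w l.succ := by
          by_cases hla : l.succ = a
          · rw [hla, mva] at h2
            linarith
          · by_cases hlb : l.succ = b
            · rw [hlb, mvb] at h2
              linarith
            · rwa [mvo _ hla hlb] at h2
        have := hfe l u g1 g2
        linarith

/-- the compact set -/
def KK (c : Fin N → ℝ) : Set (Fin (N + 1) → ℝ) := {w | w 0 = 0 ∧ Feas c w}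

lemma continuousAt_PPw {w : Fin (N + 1) → ℝ} {u : ℝ} (h : ∀ k, u ≠ w k) :
    ContinuousAt (fun v : Fin (N + 1) → ℝ => PP v u) w := by
  unfold PP
  apply tendsto_finsetSum
  intro k _
  have : u - w k ≠ 0 := sub_ne_zero.2 (h k)
  have h2 : (u - w k) ^ 2 ≠ 0 := pow_ne_zero 2 this
  have hc : ContinuousAt (fun v : Fin (N + 1) → ℝ => (u - v k) ^ 2) w :=
    ((continuous_const.sub (continuous_apply k)).pow 2).continuousAt
  exact ContinuousAt.div continuousAt_const hc h2

lemma isClosed_KK (c : Fin N → ℝ) : IsClosed (KK c) := by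
  have h1 : IsClosed {w : Fin (N + 1) → ℝ | w 0 = 0} :=
    isClosed_eq (by fun_prop) continuous_const
  have h2 : IsClosed {w : Fin (N + 1) → ℝ | Monotone w} := by
    have : {w : Fin (N + 1) → ℝ | Monotone w} = ⋂ (k) (l) (_ : k ≤ l), {w | w k ≤ w l} := by
      ext w
      simp only [Set.mem_ofPred_eq, Set.mem_iInter]
      exact ⟨fun h k l hkl => h hkl, fun h k l hkl => h k l hkl⟩
    rw [this]
    exact isClosed_iInter fun k => isClosed_iInter fun l => isClosed_iInter fun _ =>
      isClosed_le (by fun_prop) (by fun_prop)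
  have h3 : KK c = {w | w 0 = 0} ∩ {w | Monotone w} ∩ KK c := by
    ext w
    exact ⟨fun h => ⟨⟨h.1, h.2.1⟩, h⟩, fun h => h.2⟩
  rw [← closure_subset_iff_isClosed]
  intro w hw
  have hw0 : w ∈ {w : Fin (N + 1) → ℝ | w 0 = 0} :=
    h1.closure_subset_iff.2 (fun v hv => hv.1) hw
  have hwm : w ∈ {w : Fin (N + 1) → ℝ | Monotone w} :=
    h2.closure_subset_iff.2 (fun v hv => hv.2.1) hw
  refine ⟨hw0, hwm, ?_⟩
  intro i u hu1 hu2
  by_contra hcon
  push Not at hcon
  have hpole := ne_pole hwm hu1 hu2
  have e1 : ∀ᶠ v in 𝓝 w, PP v u < c i := (continuousAt_PPw hpole).eventually_lt_const hcon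
  have e2 : ∀ᶠ v in 𝓝 w, v i.castSucc < u :=
    (continuous_apply (i.castSucc)).continuousAt.eventually_lt_const hu1
  have e3 : ∀ᶠ v in 𝓝 w, u < v i.succ :=
    (continuous_apply (i.succ)).continuousAt.eventually_const_lt hu2
  have hf := mem_closure_iff_frequently.1 hw
  obtain ⟨v, hv, g1, g2, g3⟩ := (hf.and_eventually (e1.and (e2.and e3))).exists
  exact absurd (hv.2.2 i u g2 g3) (not_le.2 g1)

lemma gap_le (c : Fin N → ℝ) (hc : ∀ i, 0 < c i) : ∃ G : ℝ, 0 ≤ G ∧ ∀ w ∈ KK c, ∀ i : Fin N,
    w i.succ ≤ w i.castSucc + G := by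
  -- a common lower bound for `c`
  obtain ⟨c0, hc0, hc0'⟩ : ∃ c0 : ℝ, 0 < c0 ∧ ∀ i, c0 ≤ c i := by
    rcases isEmpty_or_nonempty (Fin N) with he | hne
    · exact ⟨1, one_pos, fun i => he.elim i⟩
    · obtain ⟨i0, hi0⟩ := Finite.exists_min c
      exact ⟨c i0, hc i0, hi0⟩
  refine ⟨√(4 * (N + 1) / c0), Real.sqrt_nonneg _, ?_⟩
  rintro w ⟨_, hmono, hfe⟩ i
  by_contra hcon
  push Not at hcon
  set g := w i.succ - w i.castSucc with hg
  have hg0 : √(4 * (N + 1) / c0) < g := by linarith
  have hgpos : 0 < g := (Real.sqrt_nonneg _).trans_lt hg0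
  have hg2 : 4 * (N + 1) / c0 < g ^ 2 := (Real.sqrt_lt' hgpos).1 hg0
  have h1 := hfe i (w i.castSucc + g / 2) (by linarith) (by rw [hg] at hgpos ⊢; linarith)
  have h2 : PP w (w i.castSucc + g / 2) ≤ ∑ k : Fin (N + 1), 1 / (g / 2) ^ 2 := by
    apply Finset.sum_le_sum
    intro k _
    apply one_div_le_one_div_of_le (by positivity)
    rcases fin_le_or i k with h | h
    · have := hmono h
      exact pow_le_pow_left₀ (by positivity) (by linarith) 2
    · have := hmono h
      rw [show (w i.castSucc + g / 2 - w k) ^ 2 = (w k - (w i.castSucc + g / 2)) ^ 2 by ring]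
      exact pow_le_pow_left₀ (by positivity) (by linarith) 2
  rw [Finset.sum_const, Finset.card_univ, Fintype.card_fin, nsmul_eq_mul] at h2
  have h3 := hc0' i
  have h4 : ((N + 1 : ℕ) : ℝ) * (1 / (g / 2) ^ 2) < c0 := by
    rw [div_lt_iff₀ hc0] at hg2
    rw [mul_one_div, div_lt_iff₀ (by positivity)]
    push_cast
    nlinarith
  linarith

lemma isCompact_KK (c : Fin N → ℝ) (hc : ∀ i, 0 < c i) : IsCompact (KK c) := by
  obtain ⟨G, hG, hgap⟩ := gap_le c hc
  have hsub : KK c ⊆ Set.pi Set.univ (fun _ : Fin (N + 1) => Set.Icc (0 : ℝ) (N * G)) := by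
    intro w hw k _
    have h0 : w 0 = 0 := hw.1
    have hm := hw.2.1
    constructor
    · rw [← h0]
      exact hm (Fin.zero_le k)
    · have h : ∀ k : Fin (N + 1), w k ≤ (k : ℕ) * G := by
        intro k
        induction k using Fin.induction with
        | zero => simp [h0]
        | succ i ih =>
          have h1 := hgap w hw i
          have h2 : ((i.succ : Fin (N + 1)) : ℕ) = (i.castSucc : ℕ) + 1 := by simp
          rw [h2]
          push_cast
          linarith
      have h1 : ((k : ℕ) : ℝ) ≤ N := by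
        have := k.isLt
        exact_mod_cast Nat.lt_succ_iff.1 this
      exact (h k).trans (mul_le_mul_of_nonneg_right h1 hG)
  exact (isCompact_univ_pi fun _ => isCompact_Icc).of_isClosed_subset (isClosed_KK c) hsub

lemma feas_translate (c : Fin N → ℝ) (w : Fin (N + 1) → ℝ) (hw : Feas c w) (s : ℝ) :
    Feas c (fun k => w k - s) := by
  refine ⟨fun k l hkl => sub_le_sub_right (hw.1 hkl) s, ?_⟩
  intro i u h1 h2
  have h := hw.2 i (u + s) (by linarith) (by linarith)
  have e : PP (fun k => w k - s) u = PP w (u + s) := by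
    unfold PP
    apply Finset.sum_congr rfl
    intro k _
    rw [show u - (w k - s) = u + s - w k by ring]
  rw [e]
  exact h

/-- the minima between consecutive poles can be prescribed -/
theorem exists_conf (c : Fin N → ℝ) (hc : ∀ i, 0 < c i) (hc4 : ∀ i, c i ≤ 4) :
    ∃ w : Fin (N + 1) → ℝ, StrictMono w ∧
      (∀ i : Fin N, ∀ u, w i.castSucc < u → u < w i.succ → c i ≤ PP w u) ∧
      ∀ i : Fin N, ∃ u, w i.castSucc < u ∧ u < w i.succ ∧ PP w u = c i := by
  have hne : (KK c).Nonempty := by
    refine ⟨fun _ => 0, rfl, fun _ _ _ => le_rfl, ?_⟩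
    intro i u h1 h2
    exact absurd (h1.trans h2) (lt_irrefl _)
  have hcont : ContinuousOn (fun w : Fin (N + 1) → ℝ => ∑ k : Fin (N + 1), (k : ℕ) * w k) (KK c) :=
    by fun_prop
  obtain ⟨w, hw, hmax⟩ := (isCompact_KK c hc).exists_isMaxOn hne hcont
  have hex : ∀ i : Fin N, ∃ u, w i.castSucc < u ∧ u < w i.succ ∧ PP w u = c i := by
    intro i
    by_contra hcon
    push Not at hcon
    obtain ⟨a, b, hab, ε, hε, hfe⟩ := perturb c hc4 w hw.2 i (by
      intro u h1 h2
      exact lt_of_le_of_ne (hw.2.2 i u h1 h2) (Ne.symm (hcon u h1 h2)))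
    have hmem : (fun k => mv w a b ε k - mv w a b ε 0) ∈ KK c :=
      ⟨by simp, feas_translate c _ hfe (mv w a b ε 0)⟩
    have h1 := hmax hmem
    simp only [Set.mem_ofPred_eq] at h1
    have h2 := sum_mv w a b hab.ne ε
    have h3 : ∑ k : Fin (N + 1), (k : ℕ) * (mv w a b ε k - mv w a b ε 0) =
        ∑ k : Fin (N + 1), (k : ℕ) * mv w a b ε k -
          (∑ k : Fin (N + 1), ((k : ℕ) : ℝ)) * mv w a b ε 0 := by
      rw [Finset.sum_mul, ← Finset.sum_sub_distrib]
      apply Finset.sum_congr rfl
      intro k _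
      ring
    have h4 : mv w a b ε 0 ≤ 0 := by
      unfold mv
      have hb0 : (0 : Fin (N + 1)) ≠ b := (lt_of_le_of_lt (Fin.zero_le a) hab).ne
      by_cases ha0 : (0 : Fin (N + 1)) = a
      · simp only [ha0, if_true]
        rw [← ha0, hw.1]
        linarith
      · simp only [ha0, hb0, if_false]
        exact hw.1.le
    have h5 : 0 ≤ ∑ k : Fin (N + 1), ((k : ℕ) : ℝ) := Finset.sum_nonneg fun k _ => by positivity
    have h6 : (0 : ℝ) < (b : ℕ) - (a : ℕ) := by
      have : ((a : ℕ) : ℝ) < (b : ℕ) := by exact_mod_cast hab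
      linarith
    have h7 : 0 < ε * ((b : ℕ) - (a : ℕ)) := mul_pos hε h6
    have h8 : (∑ k : Fin (N + 1), ((k : ℕ) : ℝ)) * mv w a b ε 0 ≤ 0 :=
      mul_nonpos_of_nonneg_of_nonpos h5 h4
    rw [h3, h2] at h1
    linarith
  refine ⟨w, ?_, hw.2.2, hex⟩
  rw [Fin.strictMono_iff_lt_succ]
  intro i
  obtain ⟨u, h1, h2, _⟩ := hex i
  exact h1.trans h2

end Pool.Agent.KS6_57.CU
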