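import Mathlib
import Pool.Agent.KS6_57.CU.Conf

/-! The equation `u + ∑ 1 / (u - w k) = E` in the upper half plane. -/

open Filter Topology Polynomial

noncomputable section

namespace Pool.Agent.KS6_57.CU

variable {N : ℕ}

/-- the function -/
def ph (w : Fin (N + 1) → ℝ) (u : ℝ) : ℝ := u + ∑ k, 1 / (u - w k)

/-- the function on the complex plane -/
def phC (w : Fin (N + 1) → ℝ) (u : ℂ) : ℂ := u + ∑ k, 1 / (u - w k)

/-- sum of the inverse squares -/
def PPC (w : Fin (N + 1) → ℝ) (u : ℂ) : ℂ := ∑ k, 1 / (u - w k) ^ 2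

lemma phC_ofReal (w : Fin (N + 1) → ℝ) (x : ℝ) : phC w (x : ℂ) = (ph w x : ℂ) := by
  simp [phC, ph]

lemma PPC_ofReal (w : Fin (N + 1) → ℝ) (x : ℝ) : PPC w (x : ℂ) = (PP w x : ℂ) := by
  simp [PPC, PP]

/-- `x` is not a pole -/
def NP (w : Fin (N + 1) → ℝ) (x : ℝ) : Prop := ∀ k, x ≠ w k

lemma ph_sub (w : Fin (N + 1) → ℝ) {x y : ℝ} (hx : NP w x) (hy : NP w y) :
    ph w y - ph w x = (y - x) * (1 - ∑ k, 1 / ((x - w k) * (y - w k))) := by
  have h : ∀ k, 1 / (y - w k) - 1 / (x - w k) = (y - x) * -(1 / ((x - w k) * (y - w k))) := by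
    intro k
    have h1 : x - w k ≠ 0 := sub_ne_zero.2 (hx k)
    have h2 : y - w k ≠ 0 := sub_ne_zero.2 (hy k)
    field_simp
    ring
  have h3 : ∑ k, (1 / (y - w k) - 1 / (x - w k)) =
      (y - x) * -∑ k, 1 / ((x - w k) * (y - w k)) := by
    rw [← Finset.sum_neg_distrib, Finset.mul_sum]
    exact Finset.sum_congr rfl fun k _ => h k
  rw [Finset.sum_sub_distrib] at h3
  unfold ph
  linear_combination h3

lemma ph_strict (w : Fin (N + 1) → ℝ) {x y : ℝ} (hx : NP w x) (hy : NP w y) (hxy : x < y)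
    (hPx : PP w x ≤ 1) (hPy : PP w y ≤ 1) : ph w x < ph w y := by
  have h := ph_sub w hx hy
  have h1 : ∑ k, 1 / ((x - w k) * (y - w k)) <
      ∑ k, (1 / (x - w k) ^ 2 + 1 / (y - w k) ^ 2) / 2 := by
    apply Finset.sum_lt_sum_of_nonempty Finset.univ_nonempty
    intro k _
    have h1 : x - w k ≠ 0 := sub_ne_zero.2 (hx k)
    have h2 : y - w k ≠ 0 := sub_ne_zero.2 (hy k)
    have h3 : 0 < (1 / (x - w k) - 1 / (y - w k)) ^ 2 := by
      have : 1 / (x - w k) - 1 / (y - w k) ≠ 0 := by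
        intro h0
        have h4 : 1 / (x - w k) = 1 / (y - w k) := sub_eq_zero.1 h0
        rw [one_div, one_div, inv_inj] at h4
        linarith
      positivity
    have h4 : 1 / ((x - w k) * (y - w k)) = 1 / (x - w k) * (1 / (y - w k)) := by
      rw [one_div_mul_one_div]
    have h5 : 1 / (x - w k) ^ 2 = (1 / (x - w k)) ^ 2 := by rw [one_div_pow]
    have h6 : 1 / (y - w k) ^ 2 = (1 / (y - w k)) ^ 2 := by rw [one_div_pow]
    rw [h4, h5, h6]
    nlinarith
  have h2 : ∑ k, (1 / (x - w k) ^ 2 + 1 / (y - w k) ^ 2) / 2 = (PP w x + PP w y) / 2 := by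
    unfold PP
    rw [← Finset.sum_div, Finset.sum_add_distrib]
  have h3 : 0 < (y - x) * (1 - ∑ k, 1 / ((x - w k) * (y - w k))) := by
    apply mul_pos (by linarith)
    linarith
  linarith

lemma inv_im (z : ℂ) : (1 / z).im = -z.im * ‖1 / z‖ ^ 2 := by
  rw [one_div, Complex.inv_im, norm_inv, inv_pow, ← Complex.normSq_eq_norm_sq]
  rw [div_eq_mul_inv]

/-- the norm relation -/
lemma norm_rel (w : Fin (N + 1) → ℝ) {u : ℂ} (hu : 0 < u.im) {E : ℝ} (h : phC w u = E) :
    ∑ k, ‖1 / (u - w k)‖ ^ 2 = 1 := by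
  have h1 := congrArg Complex.im h
  unfold phC at h1
  rw [Complex.add_im, Complex.im_sum, Complex.ofReal_im] at h1
  have h2 : ∀ k, (1 / (u - w k)).im = -u.im * ‖1 / (u - w k)‖ ^ 2 := by
    intro k
    rw [inv_im]
    simp
  simp only [h2] at h1
  rw [← Finset.mul_sum] at h1
  have h3 : u.im * (1 - ∑ k, ‖1 / (u - w k)‖ ^ 2) = 0 := by linarith
  rcases mul_eq_zero.1 h3 with h4 | h4
  · exact absurd h4 hu.ne'
  · linarith

lemma not_sigma (w : Fin (N + 1) → ℝ) {x : ℝ} (hx : NP w x) (hP : PP w x ≤ 1) {u : ℂ}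
    (hu : 0 < u.im) : phC w u ≠ ph w x := by
  intro h
  have hn := norm_rel w hu h
  have hne : ∀ k, u - w k ≠ 0 := by
    intro k h0
    have := congrArg Complex.im h0
    simp at this
    exact hu.ne' this
  have hne' : ∀ k, (x : ℂ) - w k ≠ 0 := by
    intro k
    have := sub_ne_zero.2 (hx k)
    exact_mod_cast this
  have h1 : ∑ k, 1 / (u - w k) * (1 / ((x : ℂ) - w k)) = 1 := by
    have h2 : (u - x) * (1 - ∑ k, 1 / (u - w k) * (1 / ((x : ℂ) - w k))) = 0 := by
      have h3 : ∀ k, 1 / (u - w k) - 1 / ((x : ℂ) - w k) =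
          (u - x) * -(1 / (u - w k) * (1 / ((x : ℂ) - w k))) := by
        intro k
        have h4 := hne k
        have h5 := hne' k
        field_simp
        ring
      have h4 : ∑ k, (1 / (u - w k) - 1 / ((x : ℂ) - w k)) =
          (u - x) * -∑ k, 1 / (u - w k) * (1 / ((x : ℂ) - w k)) := by
        rw [← Finset.sum_neg_distrib, Finset.mul_sum]
        exact Finset.sum_congr rfl fun k _ => h3 k
      rw [Finset.sum_sub_distrib] at h4
      rw [← phC_ofReal] at h
      unfold phC at h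
      linear_combination h - h4
    rcases mul_eq_zero.1 h2 with h3 | h3
    · exfalso
      have := congrArg Complex.im h3
      simp at this
      exact hu.ne' this
    · linear_combination -h3
  have h2 : ∑ k, (‖1 / (u - w k)‖ ^ 2 + (1 / (x - w k)) ^ 2 -
      2 * ((1 / (u - w k)).re * (1 / (x - w k)))) ≤ 0 := by
    have h3 := congrArg Complex.re h1
    rw [Complex.re_sum, Complex.one_re] at h3
    have h4 : ∀ k, (1 / (u - w k) * (1 / ((x : ℂ) - w k))).re =
        (1 / (u - w k)).re * (1 / (x - w k)) := by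
      intro k
      have : (1 / ((x : ℂ) - w k)) = ((1 / (x - w k) : ℝ) : ℂ) := by push_cast; rfl
      rw [this, Complex.re_mul_ofReal]
    simp only [h4] at h3
    rw [Finset.sum_sub_distrib, Finset.sum_add_distrib, ← Finset.mul_sum, h3, hn]
    have h5 : ∑ k, (1 / (x - w k)) ^ 2 = PP w x := by
      unfold PP
      exact Finset.sum_congr rfl fun k _ => by rw [one_div_pow]
    rw [h5]
    linarith
  have h3 : 0 < ∑ k, (‖1 / (u - w k)‖ ^ 2 + (1 / (x - w k)) ^ 2 -
      2 * ((1 / (u - w k)).re * (1 / (x - w k)))) := by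
    apply Finset.sum_pos _ Finset.univ_nonempty
    intro k _
    have h4 : (1 / (u - w k)).im ≠ 0 := by
      rw [inv_im]
      have h5 : ‖1 / (u - w k)‖ ≠ 0 := by
        rw [norm_ne_zero_iff]
        exact one_div_ne_zero (hne k)
      have h6 : (u - w k).im ≠ 0 := by
        simpa using hu.ne'
      exact mul_ne_zero (neg_ne_zero.2 h6) (pow_ne_zero 2 h5)
    have h7 : ‖1 / (u - w k)‖ ^ 2 = (1 / (u - w k)).re ^ 2 + (1 / (u - w k)).im ^ 2 := by
      rw [← Complex.normSq_eq_norm_sq, Complex.normSq_apply]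
      ring
    rw [h7]
    have h8 : 0 < (1 / (u - w k)).im ^ 2 := by positivity
    nlinarith [sq_nonneg ((1 / (u - w k)).re - 1 / (x - w k))]
  linarith

/-! ### existence of a critical real solution -/

/-- the denominator -/
def QQ (w : Fin (N + 1) → ℝ) : ℂ[X] := Lagrange.nodal Finset.univ (fun k => (w k : ℂ))

/-- the numerator -/
def pp (w : Fin (N + 1) → ℝ) (E : ℝ) : ℂ[X] := (X - C (E : ℂ)) * QQ w + derivative (QQ w)

lemma QQ_monic (w : Fin (N + 1) → ℝ) : (QQ w).Monic := Lagrange.nodal_monic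

lemma QQ_natDegree (w : Fin (N + 1) → ℝ) : (QQ w).natDegree = N + 1 := by
  rw [QQ, Lagrange.natDegree_nodal]
  simp

lemma pp_aux (w : Fin (N + 1) → ℝ) (E : ℝ) :
    (pp w E).Monic ∧ (pp w E).natDegree = N + 2 := by
  have h1 : ((X - C (E : ℂ)) * QQ w).Monic := (monic_X_sub_C _).mul (QQ_monic w)
  have h2 : ((X - C (E : ℂ)) * QQ w).natDegree = N + 2 := by
    rw [(monic_X_sub_C _).natDegree_mul (QQ_monic w), natDegree_X_sub_C, QQ_natDegree]
    ring
  have h3 : (derivative (QQ w)).natDegree < ((X - C (E : ℂ)) * QQ w).natDegree := by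
    rw [h2]
    have := natDegree_derivative_le (QQ w)
    rw [QQ_natDegree] at this
    omega
  have h4 : (derivative (QQ w)).degree < ((X - C (E : ℂ)) * QQ w).degree :=
    degree_lt_degree h3
  refine ⟨h1.add_of_left h4, ?_⟩
  rw [pp, natDegree_add_eq_left_of_natDegree_lt h3, h2]

lemma QQ_eval (w : Fin (N + 1) → ℝ) (z : ℂ) : (QQ w).eval z = ∏ k, (z - w k) := by
  rw [QQ, Lagrange.eval_nodal]

lemma QQ_derivative_eval (w : Fin (N + 1) → ℝ) (z : ℂ) (hz : ∀ k, z ≠ w k) :
    (derivative (QQ w)).eval z = (QQ w).eval z * ∑ k, 1 / (z - w k) := by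
  rw [QQ, Lagrange.derivative_nodal, eval_finsetSum, Finset.mul_sum]
  apply Finset.sum_congr rfl
  intro k _
  rw [Lagrange.eval_nodal, Lagrange.eval_nodal, ← Finset.mul_prod_erase _ _ (Finset.mem_univ k)]
  have : z - w k ≠ 0 := sub_ne_zero.2 (hz k)
  field_simp

lemma pp_eval (w : Fin (N + 1) → ℝ) (E : ℝ) (z : ℂ) (hz : ∀ k, z ≠ w k) :
    (pp w E).eval z = (QQ w).eval z * (phC w z - E) := by
  rw [pp, eval_add, eval_mul, QQ_derivative_eval w z hz, eval_sub, eval_X, eval_C, phC]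
  ring

lemma root_not_pole {w : Fin (N + 1) → ℝ} (hw : Function.Injective w) {E : ℝ} {z : ℂ}
    (h : (pp w E).eval z = 0) (k : Fin (N + 1)) : z ≠ w k := by
  intro hz
  have h1 : (QQ w).eval z = 0 := by
    rw [QQ_eval]
    exact Finset.prod_eq_zero (Finset.mem_univ k) (by rw [hz]; ring)
  rw [pp, eval_add, eval_mul, h1, mul_zero, zero_add] at h
  have h2 : eval ((w k : ℝ) : ℂ) (derivative (Lagrange.nodal Finset.univ
      (fun k => (w k : ℂ)))) = eval ((w k : ℝ) : ℂ) (Lagrange.nodal (Finset.univ.erase k)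
      (fun k => (w k : ℂ))) :=
    Lagrange.eval_nodal_derivative_eval_node_eq (s := Finset.univ)
      (v := fun k => (w k : ℂ)) (Finset.mem_univ k)
  rw [hz] at h
  have h3 : eval ((w k : ℝ) : ℂ) (derivative (QQ w)) = 0 := h
  rw [QQ] at h3
  rw [h2, Lagrange.eval_nodal, Finset.prod_eq_zero_iff] at h3
  obtain ⟨l, hl, h4⟩ := h3
  have h5 : w k = w l := by
    have := sub_eq_zero.1 h4
    exact_mod_cast this
  exact (Finset.ne_of_mem_erase hl) (hw h5).symm

lemma phC_hasDerivAt (w : Fin (N + 1) → ℝ) (z : ℂ) (hz : ∀ k, z ≠ w k) :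
    HasDerivAt (phC w) (1 - PPC w z) z := by
  have h : HasDerivAt (phC w) (1 + ∑ k : Fin (N + 1), -(1 / (z - w k) ^ 2)) z := by
    unfold phC
    apply (hasDerivAt_id z).add
    apply HasDerivAt.fun_sum
    intro k _
    have h1 : z - w k ≠ 0 := sub_ne_zero.2 (hz k)
    have h2 : HasDerivAt (fun y : ℂ => (y - w k)⁻¹) (-1 / (z - w k) ^ 2) z :=
      ((hasDerivAt_id z).sub_const (w k : ℂ)).inv h1
    rw [neg_div] at h2
    have h3 : (fun y : ℂ => 1 / (y - (w k : ℂ))) = fun y : ℂ => (y - w k)⁻¹ := by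
      funext y
      rw [one_div]
    rw [h3]
    exact h2
  convert h using 1
  rw [PPC, Finset.sum_neg_distrib]
  ring

lemma pp_derivative_eval {w : Fin (N + 1) → ℝ} {E : ℝ} {z : ℂ} (hz : ∀ k, z ≠ w k)
    (h : phC w z = E) :
    (derivative (pp w E)).eval z = (QQ w).eval z * (1 - PPC w z) := by
  have h1 := (pp w E).hasDerivAt z
  have h2 : HasDerivAt (fun y => (QQ w).eval y * (phC w y - E))
      ((derivative (QQ w)).eval z * (phC w z - E) + (QQ w).eval z * (1 - PPC w z)) z :=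
    ((QQ w).hasDerivAt z).mul ((phC_hasDerivAt w z hz).sub_const _)
  have h3 : (fun y => (pp w E).eval y) =ᶠ[𝓝 z] (fun y => (QQ w).eval y * (phC w y - E)) := by
    have h4 : ∀ᶠ y : ℂ in 𝓝 z, ∀ k, y ≠ (w k : ℂ) := by
      rw [eventually_all]
      intro k
      exact isOpen_ne.mem_nhds (hz k)
    filter_upwards [h4] with y hy
    exact pp_eval w E y hy
  have h5 := h1.unique (h2.congr_of_eventuallyEq h3)
  rw [h5, h]
  ring

lemma exists_crit {w : Fin (N + 1) → ℝ} (hw : Function.Injective w) (E : ℝ)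
    (hE : ∀ u : ℂ, 0 < u.im → phC w u ≠ E) :
    ∃ x : ℝ, NP w x ∧ ph w x = E ∧ PP w x ≤ 1 := by
  by_contra hcon
  push Not at hcon
  obtain ⟨hmon, hdeg⟩ := pp_aux w E
  have hp0 : pp w E ≠ 0 := hmon.ne_zero
  -- all the roots are real
  have hreal : ∀ r ∈ (pp w E).roots, ∃ x : ℝ, (x : ℂ) = r ∧ NP w x ∧ ph w x = E ∧ 1 < PP w x ∧
      (QQ w).eval r ≠ 0 ∧ (derivative (pp w E)).eval r = (QQ w).eval r * (1 - (PP w x : ℂ)) := by
    intro r hr
    have h0 : (pp w E).eval r = 0 := (mem_roots'.1 hr).2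
    have hnp := root_not_pole hw h0
    have hQ : (QQ w).eval r ≠ 0 := by
      rw [QQ_eval, Finset.prod_ne_zero_iff]
      intro k _
      exact sub_ne_zero.2 (hnp k)
    have hph : phC w r = E := by
      rw [pp_eval w E r hnp] at h0
      rcases mul_eq_zero.1 h0 with h1 | h1
      · exact absurd h1 hQ
      · exact sub_eq_zero.1 h1
    have him : r.im = 0 := by
      rcases lt_trichotomy r.im 0 with h | h | h
      · exfalso
        apply hE (starRingEnd ℂ r) (by rw [Complex.conj_im]; linarith)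
        have h2 := congrArg (starRingEnd ℂ) hph
        rw [Complex.conj_ofReal] at h2
        rw [← h2, phC, phC, map_add, map_sum]
        simp
      · exact h
      · exact absurd hph (hE r h)
    have hx : ((r.re : ℝ) : ℂ) = r := by
      apply Complex.ext <;> simp [him]
    have hnx : NP w r.re := by
      intro k hk
      apply hnp k
      rw [← hx, hk]
    have hpx : ph w r.re = E := by
      rw [← hx, phC_ofReal] at hph
      exact_mod_cast hph
    refine ⟨r.re, hx, hnx, hpx, hcon _ hnx hpx, hQ, ?_⟩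
    rw [pp_derivative_eval hnp hph, ← PPC_ofReal, hx]
  have hne1 : ∀ x : ℝ, 1 < PP w x → (1 - (PP w x : ℂ)) ≠ 0 := by
    intro x hx h
    have : (1 : ℝ) - PP w x = 0 := by exact_mod_cast h
    linarith
  have hnodup : (pp w E).roots.Nodup := by
    rw [Multiset.nodup_iff_count_le_one]
    intro r
    rw [count_roots]
    by_contra hc
    push Not at hc
    have h1 := (one_lt_rootMultiplicity_iff_isRoot hp0).1 hc
    obtain ⟨x, hx, _, _, h4, h5, h6⟩ := hreal r ((mem_roots hp0).2 h1.1)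
    have h7 : (derivative (pp w E)).eval r = 0 := h1.2
    rw [h6] at h7
    rcases mul_eq_zero.1 h7 with h | h
    · exact h5 h
    · exact hne1 x h4 h
  set s := (pp w E).roots.toFinset with hs
  have hcard : s.card = N + 2 := by
    rw [hs, Multiset.toFinset_card_of_nodup hnodup, IsAlgClosed.card_roots_eq_natDegree, hdeg]
  have hnodal : pp w E = Lagrange.nodal s id := by
    have h1 := (IsAlgClosed.splits (pp w E)).eq_prod_roots_of_monic hmon
    rw [Lagrange.nodal, Finset.prod, hs, Multiset.toFinset_val, hnodup.dedup]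
    simpa using h1
  have hlag := Lagrange.leadingCoeff_eq_sum (s := s) (v := id) (P := QQ w)
    Function.injective_id.injOn (by
      rw [degree_eq_natDegree (QQ_monic w).ne_zero, QQ_natDegree, hcard]
      rfl)
  rw [(QQ_monic w).leadingCoeff] at hlag
  have h1 : ∀ r ∈ s, ((QQ w).eval (id r) / ∏ j ∈ s.erase r, (id r - id j)).re < 0 := by
    intro r hr
    obtain ⟨x, hx, _, _, h4, h5, h6⟩ := hreal r (Multiset.mem_toFinset.1 hr)
    have h7 : ∏ j ∈ s.erase r, (id r - id j) = (derivative (pp w E)).eval r := by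
      rw [hnodal]
      have := Lagrange.eval_nodal_derivative_eval_node_eq (s := s) (v := id) hr
      simp only [id] at this ⊢
      rw [this, Lagrange.eval_nodal]
      rfl
    rw [h7, h6]
    simp only [id]
    rw [div_mul_eq_div_div, div_self h5]
    have h8 : (1 : ℂ) / (1 - (PP w x : ℂ)) = ((1 / (1 - PP w x) : ℝ) : ℂ) := by push_cast; rfl
    rw [h8, Complex.ofReal_re]
    exact div_neg_of_pos_of_neg one_pos (by linarith)
  have h2 := congrArg Complex.re hlag
  rw [Complex.re_sum, Complex.one_re] at h2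
  have h3 : ∑ r ∈ s, ((QQ w).eval (id r) / ∏ j ∈ s.erase r, (id r - id j)).re ≤ 0 :=
    Finset.sum_nonpos fun r hr => (h1 r hr).le
  linarith

end Pool.Agent.KS6_57.CU
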