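import Mathlib
import Pool.Agent.KS6_57.CU.Sig

/-! Counting connected components of the complement of the values of `ph`. -/

open Filter Topology

noncomputable section

namespace Pool.Agent.KS6_57.CU

variable {N : ℕ}

theorem card_components {X ι : Type*} [TopologicalSpace X] [TopologicalSpace ι]
    [DiscreteTopology ι] (f : X → ι) (hf : Continuous f) (hs : Function.Surjective f)
    (hp : ∀ x y, f x = f y → ∃ t : Set X, IsPreconnected t ∧ x ∈ t ∧ y ∈ t) :
    Nat.card (ConnectedComponents X) = Nat.card ι := by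
  let g : ConnectedComponents X → ι := hf.connectedComponentsLift
  have hg : ∀ x : X, g (ConnectedComponents.mk x) = f x := fun x => rfl
  have hbij : Function.Bijective g := by
    constructor
    · intro x y hxy
      obtain ⟨x, rfl⟩ := ConnectedComponents.surjective_coe x
      obtain ⟨y, rfl⟩ := ConnectedComponents.surjective_coe y
      rw [hg, hg] at hxy
      obtain ⟨t, ht, h1, h2⟩ := hp x y hxy
      rw [ConnectedComponents.coe_eq_coe']
      exact ht.subset_connectedComponent h2 h1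
    · intro b
      obtain ⟨x, hx⟩ := hs b
      exact ⟨ConnectedComponents.mk x, by rw [hg, hx]⟩
  exact Nat.card_congr (Equiv.ofBijective g hbij)

/-- the set of the points where `ph` is nondecreasing -/
def Zle (w : Fin (N + 1) → ℝ) : Set ℝ := {x | NP w x ∧ PP w x ≤ 1}

lemma one_le_dist {w : Fin (N + 1) → ℝ} {x : ℝ} (hx : x ∈ Zle w) (k : Fin (N + 1)) :
    1 ≤ |x - w k| := by
  have h1 := (le_PP w x k).trans hx.2
  have h2 : x - w k ≠ 0 := sub_ne_zero.2 (hx.1 k)
  have h3 : 0 < |x - w k| := abs_pos.2 h2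
  rw [div_le_one (by positivity), ← sq_abs] at h1
  by_contra hcon
  push Not at hcon
  nlinarith

lemma isClosed_Zle (w : Fin (N + 1) → ℝ) : IsClosed (Zle w) := by
  have h1 : IsClosed {x : ℝ | ∀ k, 1 ≤ |x - w k|} := by
    have : {x : ℝ | ∀ k, 1 ≤ |x - w k|} = ⋂ k, {x : ℝ | 1 ≤ |x - w k|} := by
      ext x
      simp
    rw [this]
    exact isClosed_iInter fun k => isClosed_le continuous_const (by fun_prop)
  have h2 : ContinuousOn (PP w) {x : ℝ | ∀ k, 1 ≤ |x - w k|} := by
    intro x hx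
    apply (continuousAt_PP _).continuousWithinAt
    intro k hk
    have := hx k
    rw [hk, sub_self, abs_zero] at this
    linarith
  have h3 := h2.preimage_isClosed_of_isClosed h1 (isClosed_Iic (a := (1 : ℝ)))
  convert h3 using 1
  ext x
  constructor
  · intro hx
    exact ⟨one_le_dist hx, hx.2⟩
  · rintro ⟨hx1, hx2⟩
    refine ⟨?_, hx2⟩
    intro k hk
    have := hx1 k
    rw [hk, sub_self, abs_zero] at this
    linarith

lemma PP_far (w : Fin (N + 1) → ℝ) {x : ℝ} (h : ∀ k, (N : ℝ) + 1 ≤ |x - w k|) : x ∈ Zle w := by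
  have hN : (0 : ℝ) < N + 1 := by positivity
  constructor
  · intro k hk
    have := h k
    rw [hk, sub_self, abs_zero] at this
    linarith
  · have h1 : PP w x ≤ ∑ k : Fin (N + 1), 1 / ((N : ℝ) + 1) ^ 2 := by
      apply Finset.sum_le_sum
      intro k _
      apply one_div_le_one_div_of_le (by positivity)
      rw [← sq_abs (x - w k)]
      exact pow_le_pow_left₀ hN.le (h k) 2
    rw [Finset.sum_const, Finset.card_univ, Fintype.card_fin, nsmul_eq_mul] at h1
    refine h1.trans ?_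
    push_cast
    rw [mul_one_div, div_le_one (by positivity)]
    have : (0 : ℝ) ≤ N := Nat.cast_nonneg N
    nlinarith

lemma exists_sep (w : Fin (N + 1) → ℝ) (hw : StrictMono w) (k : Fin (N + 1)) :
    ∃ E : ℝ, (∀ x ∈ Zle w, x < w k → ph w x < E) ∧ ∀ x ∈ Zle w, w k < x → E < ph w x := by
  have hN : (0 : ℝ) < N + 1 := by positivity
  -- the left side
  obtain ⟨a, ha, hak, ha'⟩ : ∃ a ∈ Zle w, a < w k ∧ ∀ x ∈ Zle w, x < w k → x ≤ a := by
    have hne : (Zle w ∩ Set.Iic (w k)).Nonempty := by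
      refine ⟨w 0 - (N + 1), PP_far w ?_, ?_⟩
      · intro l
        have h1 := hw.monotone (Fin.zero_le l)
        rw [abs_sub_comm]
        exact le_trans (by linarith) (le_abs_self _)
      · have h1 := hw.monotone (Fin.zero_le k)
        simp only [Set.mem_Iic]
        linarith
    have hcl : IsClosed (Zle w ∩ Set.Iic (w k)) := (isClosed_Zle w).inter isClosed_Iic
    have hbd : BddAbove (Zle w ∩ Set.Iic (w k)) := ⟨w k, fun x hx => hx.2⟩
    have hmem := hcl.csSup_mem hne hbd
    refine ⟨_, hmem.1, lt_of_le_of_ne hmem.2 (hmem.1.1 k), ?_⟩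
    intro x hx hxk
    exact le_csSup hbd ⟨hx, hxk.le⟩
  obtain ⟨b, hb, hbk, hb'⟩ : ∃ b ∈ Zle w, w k < b ∧ ∀ x ∈ Zle w, w k < x → b ≤ x := by
    have hne : (Zle w ∩ Set.Ici (w k)).Nonempty := by
      refine ⟨w (Fin.last N) + (N + 1), PP_far w ?_, ?_⟩
      · intro l
        have h1 := hw.monotone (Fin.le_last l)
        exact le_trans (by linarith) (le_abs_self _)
      · have h1 := hw.monotone (Fin.le_last k)
        simp only [Set.mem_Ici]
        linarith
    have hcl : IsClosed (Zle w ∩ Set.Ici (w k)) := (isClosed_Zle w).inter isClosed_Ici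
    have hbd : BddBelow (Zle w ∩ Set.Ici (w k)) := ⟨w k, fun x hx => hx.2⟩
    have hmem := hcl.csInf_mem hne hbd
    refine ⟨_, hmem.1, lt_of_le_of_ne hmem.2 (Ne.symm (hmem.1.1 k)), ?_⟩
    intro x hx hxk
    exact csInf_le hbd ⟨hx, hxk.le⟩
  have hab : ph w a < ph w b := ph_strict w ha.1 hb.1 (hak.trans hbk) ha.2 hb.2
  have hmono : ∀ x ∈ Zle w, ∀ y ∈ Zle w, x ≤ y → ph w x ≤ ph w y := by
    intro x hx y hy hxy
    rcases hxy.eq_or_lt with h | h
    · rw [h]
    · exact (ph_strict w hx.1 hy.1 h hx.2 hy.2).le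
  refine ⟨(ph w a + ph w b) / 2, ?_, ?_⟩
  · intro x hx hxk
    have := hmono x hx a ha (ha' x hx hxk)
    linarith
  · intro x hx hxk
    have := hmono b hb x hx (hb' x hx hxk)
    linarith

lemma locate (w : Fin (N + 1) → ℝ) {x : ℝ} (hx : NP w x) :
    x < w 0 ∨ w (Fin.last N) < x ∨ ∃ l : Fin N, w l.castSucc < x ∧ x < w l.succ := by
  rcases lt_or_gt_of_ne (hx 0) with h | h
  · exact Or.inl h
  · right
    have key : ∀ k : Fin (N + 1), w k < x ∨ ∃ l : Fin N, w l.castSucc < x ∧ x < w l.succ := by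
      intro k
      induction k using Fin.induction with
      | zero => exact Or.inl h
      | succ i ih =>
        rcases ih with ih | ih
        · rcases lt_or_gt_of_ne (hx i.succ) with h2 | h2
          · exact Or.inr ⟨i, ih, h2⟩
          · exact Or.inl h2
        · exact Or.inr ih
    exact key _

lemma continuousAt_ph {w : Fin (N + 1) → ℝ} {u : ℝ} (h : NP w u) :
    ContinuousAt (ph w) u := by
  unfold ph
  apply continuousAt_id.add
  apply tendsto_finsetSum
  intro k _
  have : u - w k ≠ 0 := sub_ne_zero.2 (h k)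
  exact ContinuousAt.div (by fun_prop) (by fun_prop) this

lemma ivt {w : Fin (N + 1) → ℝ} {a b : ℝ} (hab : a ≤ b) (h : ∀ x, a ≤ x → x ≤ b → NP w x) {E : ℝ}
    (h1 : ph w a ≤ E) (h2 : E ≤ ph w b) : ∃ x, a ≤ x ∧ x ≤ b ∧ ph w x = E := by
  have hc : ContinuousOn (ph w) (Set.Icc a b) := fun x hx =>
    (continuousAt_ph (h x hx.1 hx.2)).continuousWithinAt
  obtain ⟨x, hx, hx2⟩ := intermediate_value_Icc hab hc ⟨h1, h2⟩
  exact ⟨x, hx.1, hx.2, hx2⟩

/-- the hypotheses on the set whose values are removed -/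
structure Good (w : Fin (N + 1) → ℝ) (u : Fin N → ℝ) (r : ℕ) (Z : Set ℝ) : Prop where
  hr : r ≤ N
  hsep : ∀ i : Fin N, w i.castSucc < u i ∧ u i < w i.succ
  hle : ∀ x ∈ Z, x ∈ Zle w
  hconv : ∀ l : Fin N, ∀ x y z, w l.castSucc < x → z < w l.succ → x ≤ y → y ≤ z → x ∈ Z →
    z ∈ Z → y ∈ Z
  hleft : ∀ x y, y < w 0 → x ≤ y → y ∈ Z → x ∈ Z
  hright : ∀ x y, w (Fin.last N) < x → x ≤ y → x ∈ Z → y ∈ Z
  hu : ∀ i : Fin N, (i : ℕ) < r → u i ∈ Z
  he : ∀ i : Fin N, r ≤ (i : ℕ) → ∀ x, w i.castSucc < x → x < w i.succ → x ∉ Z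

/-- complement of the values -/
def SS (w : Fin (N + 1) → ℝ) (Z : Set ℝ) : Set ℝ := {E | ∀ x ∈ Z, ph w x ≠ E}

lemma Icc_sub {w : Fin (N + 1) → ℝ} (hw : StrictMono w) {u : Fin N → ℝ} {r : ℕ} {Z : Set ℝ}
    (hG : Good w u r Z) {E1 E2 : ℝ} (h1 : E1 ∈ SS w Z) (h2 : E2 ∈ SS w Z)
    (h : ∀ i : Fin N, (i : ℕ) < r → (ph w (u i) < E1 ↔ ph w (u i) < E2)) :
    Set.Icc E1 E2 ⊆ SS w Z := by
  intro E hE x hx hxE
  have hlt1 : E1 < ph w x := lt_of_le_of_ne (by rw [hxE]; exact hE.1) (Ne.symm (h1 x hx))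
  have hlt2 : ph w x < E2 := lt_of_le_of_ne (by rw [hxE]; exact hE.2) (h2 x hx)
  rcases locate w (hG.hle x hx).1 with hl | hl | ⟨l, hl1, hl2⟩
  · -- left ray
    set y := min x E1 with hy
    have hyx : y ≤ x := min_le_left _ _
    have hZ : ∀ z, z ≤ x → z ∈ Z := fun z hz => hG.hleft z x hl hz hx
    have hphy : ph w y ≤ E1 := by
      have : ∑ k, 1 / (y - w k) ≤ 0 := by
        apply Finset.sum_nonpos
        intro k _
        have := hw.monotone (Fin.zero_le k)
        apply div_nonpos_of_nonneg_of_nonpos zero_le_one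
        linarith
      unfold ph
      have := min_le_right x E1
      linarith
    obtain ⟨z, _, hz2, hz3⟩ := ivt hyx (fun z _ hz => (hG.hle z (hZ z hz)).1) hphy hlt1.le
    exact h1 z (hZ z hz2) hz3
  · -- right ray
    set y := max x E2 with hy
    have hyx : x ≤ y := le_max_left _ _
    have hZ : ∀ z, x ≤ z → z ∈ Z := fun z hz => hG.hright x z hl hz hx
    have hphy : E2 ≤ ph w y := by
      have : 0 ≤ ∑ k, 1 / (y - w k) := by
        apply Finset.sum_nonneg
        intro k _
        have := hw.monotone (Fin.le_last k)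
        apply div_nonneg zero_le_one
        linarith
      unfold ph
      have := le_max_right x E2
      linarith
    obtain ⟨z, hz1, _, hz3⟩ := ivt hyx (fun z hz _ => (hG.hle z (hZ z hz)).1) hlt2.le hphy
    exact h2 z (hZ z hz1) hz3
  · have hlr : (l : ℕ) < r := by
      by_contra hcon
      push Not at hcon
      exact hG.he l hcon x hl1 hl2 hx
    have hul := hG.hu l hlr
    have hs := hG.hsep l
    rcases lt_or_gt_of_ne (h1 _ hul) with hs1 | hs1
    · -- `ph (u l) < E1 < ph x`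
      have hux : u l < x := by
        by_contra hcon
        push Not at hcon
        rcases hcon.eq_or_lt with h3 | h3
        · rw [← h3] at hs1
          linarith
        · have := ph_strict w (hG.hle x hx).1 (hG.hle _ hul).1 h3 (hG.hle x hx).2 (hG.hle _ hul).2
          linarith
      have hZ : ∀ z, u l ≤ z → z ≤ x → z ∈ Z := fun z hz1 hz2 =>
        hG.hconv l (u l) z x hs.1 hl2 hz1 hz2 hul hx
      obtain ⟨z, hz1, hz2, hz3⟩ := ivt hux.le (fun z hz hz' => (hG.hle z (hZ z hz hz')).1) hs1.le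
        hlt1.le
      exact h1 z (hZ z hz1 hz2) hz3
    · -- `E2 < ph (u l)`
      have hs2 : E2 < ph w (u l) := by
        rcases lt_or_gt_of_ne (h2 _ hul) with h3 | h3
        · have := (h l hlr).2 h3
          linarith
        · exact h3
      have hux : x < u l := by
        by_contra hcon
        push Not at hcon
        rcases hcon.eq_or_lt with h3 | h3
        · rw [h3] at hs2
          linarith
        · have := ph_strict w (hG.hle _ hul).1 (hG.hle x hx).1 h3 (hG.hle _ hul).2 (hG.hle x hx).2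
          linarith
      have hZ : ∀ z, x ≤ z → z ≤ u l → z ∈ Z := fun z hz1 hz2 =>
        hG.hconv l x z (u l) hl1 hs.2 hz1 hz2 hx hul
      obtain ⟨z, hz1, hz2, hz3⟩ := ivt hux.le (fun z hz hz' => (hG.hle z (hZ z hz hz')).1) hlt2.le
        hs2.le
      exact h2 z (hZ z hz1 hz2) hz3

/-- the separators below `E` -/
def Sep (w : Fin (N + 1) → ℝ) (u : Fin N → ℝ) (r : ℕ) (E : ℝ) : Finset (Fin N) := by
  classical
  exact Finset.univ.filter (fun i : Fin N => (i : ℕ) < r ∧ ph w (u i) < E)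

lemma mem_Sep {w : Fin (N + 1) → ℝ} {u : Fin N → ℝ} {r : ℕ} {E : ℝ} {i : Fin N} :
    i ∈ Sep w u r E ↔ (i : ℕ) < r ∧ ph w (u i) < E := by
  simp [Sep]

lemma card_lt_aux {m : ℕ} (hm : m ≤ N) (T : Finset (Fin N)) (hT : ∀ i, i ∈ T ↔ (i : ℕ) < m) :
    T.card = m := by
  have h : T.image (fun i : Fin N => (i : ℕ)) = Finset.range m := by
    ext j
    rw [Finset.mem_image, Finset.mem_range]
    constructor
    · rintro ⟨i, hi, rfl⟩
      exact (hT i).1 hi
    · intro hj
      exact ⟨⟨j, by omega⟩, (hT _).2 hj, rfl⟩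
  rw [← Finset.card_range m, ← h, Finset.card_image_of_injective _ Fin.val_injective]

lemma card_Sep_le (w : Fin (N + 1) → ℝ) (u : Fin N → ℝ) {r : ℕ} (hr : r ≤ N) (E : ℝ) :
    (Sep w u r E).card ≤ r := by
  classical
  have h1 := card_lt_aux hr (Finset.univ.filter (fun i : Fin N => (i : ℕ) < r)) (by simp)
  calc (Sep w u r E).card ≤ (Finset.univ.filter (fun i : Fin N => (i : ℕ) < r)).card := by
        apply Finset.card_le_card
        intro i hi
        have := (mem_Sep.1 hi).1
        simpa using this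
    _ = r := h1

theorem components {w : Fin (N + 1) → ℝ} (hw : StrictMono w) {u : Fin N → ℝ} {r : ℕ} {Z : Set ℝ}
    (hG : Good w u r Z) : Nat.card (ConnectedComponents (SS w Z)) = r + 1 := by
  let F : SS w Z → Fin (r + 1) := fun E =>
    ⟨(Sep w u r (E : ℝ)).card, Nat.lt_succ_of_le (card_Sep_le w u hG.hr _)⟩
  have hF : ∀ E : SS w Z, ((F E : Fin (r + 1)) : ℕ) = (Sep w u r (E : ℝ)).card := fun _ => rfl
  have hcont : Continuous F := by
    apply IsLocallyConstant.continuous
    rw [IsLocallyConstant.iff_eventually_eq]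
    intro E
    have h1 : ∀ᶠ E' : SS w Z in 𝓝 E, ∀ i : Fin N, (i : ℕ) < r →
        (ph w (u i) < (E' : ℝ) ↔ ph w (u i) < (E : ℝ)) := by
      rw [eventually_all]
      intro i
      by_cases hi : (i : ℕ) < r
      · rcases lt_or_gt_of_ne (E.2 (u i) (hG.hu i hi)) with h | h
        · have h2 : ∀ᶠ E' : SS w Z in 𝓝 E, ph w (u i) < (E' : ℝ) :=
            continuous_subtype_val.continuousAt.eventually_const_lt h
          filter_upwards [h2] with E' hE' _
          exact ⟨fun _ => h, fun _ => hE'⟩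
        · have h2 : ∀ᶠ E' : SS w Z in 𝓝 E, (E' : ℝ) < ph w (u i) :=
            continuous_subtype_val.continuousAt.eventually_lt_const h
          filter_upwards [h2] with E' hE' _
          exact ⟨fun h3 => absurd h3 (not_lt.2 hE'.le), fun h3 => absurd h3 (not_lt.2 h.le)⟩
      · filter_upwards with E' h3
        exact absurd h3 hi
    filter_upwards [h1] with E' hE'
    apply Fin.ext
    rw [hF, hF]
    congr 1
    ext i
    rw [mem_Sep, mem_Sep]
    constructor
    · rintro ⟨a1, a2⟩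
      exact ⟨a1, (hE' i a1).1 a2⟩
    · rintro ⟨a1, a2⟩
      exact ⟨a1, (hE' i a1).2 a2⟩
  have hsurj : Function.Surjective F := by
    intro m
    have hmN : (m : ℕ) < N + 1 := by
      have := m.2
      have := hG.hr
      omega
    obtain ⟨E, hE1, hE2⟩ := exists_sep w hw ⟨m, hmN⟩
    have hES : E ∈ SS w Z := by
      intro x hx hxE
      rcases lt_or_gt_of_ne ((hG.hle x hx).1 ⟨m, hmN⟩) with h | h
      · have := hE1 x (hG.hle x hx) h
        linarith
      · have := hE2 x (hG.hle x hx) h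
        linarith
    refine ⟨⟨E, hES⟩, Fin.ext ?_⟩
    rw [hF]
    apply card_lt_aux (by omega)
    intro i
    rw [mem_Sep]
    have hs := hG.hsep i
    constructor
    · rintro ⟨h1, h2⟩
      by_contra hcon
      push Not at hcon
      have h3 : w ⟨m, hmN⟩ ≤ w i.castSucc := hw.monotone (by
        rw [Fin.le_def]
        exact hcon)
      have := hE2 (u i) (hG.hle _ (hG.hu i h1)) (h3.trans_lt hs.1)
      simp only at h2
      linarith
    · intro h1
      have h4 : (i : ℕ) < r := by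
        have := m.2
        omega
      have h3 : w i.succ ≤ w ⟨m, hmN⟩ := hw.monotone (by
        rw [Fin.le_def]
        simp only [Fin.val_succ]
        omega)
      exact ⟨h4, hE1 (u i) (hG.hle _ (hG.hu i h4)) (hs.2.trans_le h3)⟩
  have hpre : ∀ E1 E2 : SS w Z, (E1 : ℝ) ≤ E2 → F E1 = F E2 →
      ∃ t : Set (SS w Z), IsPreconnected t ∧ E1 ∈ t ∧ E2 ∈ t := by
    intro E1 E2 h12 hFE
    have hsub : Sep w u r (E1 : ℝ) ⊆ Sep w u r (E2 : ℝ) := by
      intro i hi
      rw [mem_Sep] at hi ⊢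
      exact ⟨hi.1, hi.2.trans_le h12⟩
    have hcard : (Sep w u r (E2 : ℝ)).card ≤ (Sep w u r (E1 : ℝ)).card := by
      rw [← hF, ← hF, hFE]
    have heq := Finset.eq_of_subset_of_card_le hsub hcard
    have hiff : ∀ i : Fin N, (i : ℕ) < r →
        (ph w (u i) < (E1 : ℝ) ↔ ph w (u i) < (E2 : ℝ)) := by
      intro i hi
      have h3 : i ∈ Sep w u r (E1 : ℝ) ↔ i ∈ Sep w u r (E2 : ℝ) := by rw [heq]
      rw [mem_Sep, mem_Sep] at h3
      constructor
      · intro h
        exact (h3.1 ⟨hi, h⟩).2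
      · intro h
        exact (h3.2 ⟨hi, h⟩).2
    have hIcc := Icc_sub hw hG E1.2 E2.2 hiff
    refine ⟨(fun z : SS w Z => (z : ℝ)) ⁻¹' (Set.Icc (E1 : ℝ) (E2 : ℝ)), ?_, ⟨le_rfl, h12⟩,
      ⟨h12, le_rfl⟩⟩
    have hrange : Set.Icc (E1 : ℝ) (E2 : ℝ) ⊆ Set.range (fun z : SS w Z => (z : ℝ)) := by
      intro z hz
      exact ⟨⟨z, hIcc hz⟩, rfl⟩
    exact (Topology.IsInducing.subtypeVal.isPreconnected_image).1 (by
      rw [Set.image_preimage_eq_of_subset hrange]
      exact isPreconnected_Icc)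
  rw [card_components F hcont hsurj ?_, Nat.card_eq_fintype_card, Fintype.card_fin]
  intro E1 E2 hFE
  rcases le_total (E1 : ℝ) (E2 : ℝ) with h | h
  · exact hpre E1 E2 h hFE
  · obtain ⟨t, ht, h1, h2⟩ := hpre E2 E1 h hFE.symm
    exact ⟨t, ht, h2, h1⟩

end Pool.Agent.KS6_57.CU
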