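import Mathlib
import Pool.Agent.KS6_57.CU.Sig

/-! The operator on `l2` of the words over a finite alphabet and its spectrum. -/

open scoped ENNReal ComplexConjugate

noncomputable section

namespace Pool.Agent.KS6_57.CU

variable {A : Type} [Fintype A] [DecidableEq A]

/-- the Hilbert space -/
abbrev H (A : Type) : Type := lp (fun _ : List A => ℂ) 2

lemma memlp_comp (k : A) (φ : H A) : Memℓp (fun x : List A => φ (k :: x)) 2 := by
  have h := lp.memℓp φ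
  rw [memℓp_gen_iff (by norm_num)] at h ⊢
  exact h.comp_injective (List.cons_injective)

omit [Fintype A] [DecidableEq A] in
lemma norm_sq_eq (φ : H A) : ‖φ‖ ^ 2 = ∑' x, ‖φ x‖ ^ 2 := by
  have := lp.norm_rpow_eq_tsum (p := 2) (by norm_num) φ
  simpa using this

omit [Fintype A] [DecidableEq A] in
lemma summable_sq (φ : H A) : Summable fun x => ‖φ x‖ ^ 2 := by
  have h := lp.memℓp φ
  rw [memℓp_gen_iff (by norm_num)] at h
  simpa using h

/-- `φ ↦ φ (k :: ·)` as a function -/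
def Cfun (k : A) (φ : H A) : H A := ⟨fun x => φ (k :: x), memlp_comp k φ⟩

@[simp] lemma Cfun_apply (k : A) (φ : H A) (x : List A) : Cfun k φ x = φ (k :: x) := rfl

/-- words as a disjoint sum -/
def wordEquiv (A : Type) : Unit ⊕ (A × List A) ≃ List A where
  toFun z := match z with
    | Sum.inl _ => []
    | Sum.inr (k, x) => k :: x
  invFun l := match l with
    | [] => Sum.inl ()
    | k :: x => Sum.inr (k, x)
  left_inv := by
    intro z
    match z with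
    | Sum.inl _ => rfl
    | Sum.inr (k, x) => rfl
  right_inv := by
    intro l
    match l with
    | [] => rfl
    | k :: x => rfl

/-- splitting of a sum over words -/
lemma tsum_split (f : List A → ℝ) (hf : Summable f) :
    ∑' x, f x = f [] + ∑ k, ∑' x, f (k :: x) := by
  have hs : Summable (fun z => f (wordEquiv A z)) := hf.comp_injective (wordEquiv A).injective
  have h1 : Summable (fun z : Unit => f (wordEquiv A (Sum.inl z))) :=
    hs.comp_injective Sum.inl_injective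
  have h2 : Summable (fun z : A × List A => f (wordEquiv A (Sum.inr z))) :=
    hs.comp_injective Sum.inr_injective
  have e0 : ∑' x, f x = ∑' z, f (wordEquiv A z) := ((wordEquiv A).tsum_eq f).symm
  have e1 : ∑' z, f (wordEquiv A z) = ∑' z : Unit, f (wordEquiv A (Sum.inl z)) +
      ∑' z : A × List A, f (wordEquiv A (Sum.inr z)) := Summable.tsum_sum h1 h2
  have e3 : ∑' z : Unit, f (wordEquiv A (Sum.inl z)) = f [] := by
    rw [tsum_fintype, Fintype.sum_unique]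
    rfl
  have e4 : ∑' z : A × List A, f (wordEquiv A (Sum.inr z)) =
      ∑' k : A, ∑' x, f (wordEquiv A (Sum.inr (k, x))) := h2.tsum_prod
  have e5 : ∑' k : A, ∑' x, f (wordEquiv A (Sum.inr (k, x))) = ∑ k, ∑' x, f (k :: x) := by
    rw [tsum_fintype]
    rfl
  rw [e0, e1, e3, e4, e5]

lemma norm_split (φ : H A) : ‖φ‖ ^ 2 = ‖φ []‖ ^ 2 + ∑ k, ‖Cfun k φ‖ ^ 2 := by
  rw [norm_sq_eq, tsum_split _ (summable_sq φ)]
  congr 1
  apply Finset.sum_congr rfl
  intro k _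
  rw [norm_sq_eq]
  rfl

lemma Cfun_norm_le (k : A) (φ : H A) : ‖Cfun k φ‖ ≤ ‖φ‖ := by
  have h := norm_split φ
  have h0 : 0 ≤ ‖φ []‖ ^ 2 := by positivity
  have h1 : ‖Cfun k φ‖ ^ 2 ≤ ∑ k, ‖Cfun k φ‖ ^ 2 :=
    Finset.single_le_sum (f := fun k => ‖Cfun k φ‖ ^ 2) (fun k _ => by positivity)
      (Finset.mem_univ k)
  have h3 : ‖Cfun k φ‖ ^ 2 ≤ ‖φ‖ ^ 2 := by linarith
  exact (sq_le_sq₀ (norm_nonneg _) (norm_nonneg _)).1 h3

/-- the operators `C k`, `(C k φ) x = φ (k :: x)` -/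
def C (k : A) : H A →L[ℂ] H A :=
  LinearMap.mkContinuous
    { toFun := Cfun k
      map_add' := fun φ ψ => by ext x; rfl
      map_smul' := fun c φ => by ext x; rfl } 1
    (fun φ => by simpa using Cfun_norm_le k φ)

@[simp] lemma C_apply (k : A) (φ : H A) (x : List A) : C k φ x = φ (k :: x) := rfl

lemma norm_split' (φ : H A) : ‖φ‖ ^ 2 = ‖φ []‖ ^ 2 + ∑ k, ‖C k φ‖ ^ 2 :=
  norm_split φ

/-- the adjoint -/
def S (k : A) : H A →L[ℂ] H A := ContinuousLinearMap.adjoint (C k)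

/-- unit vector -/
def δ (x : List A) : H A := lp.single 2 x (1 : ℂ)

omit [Fintype A] in
lemma inner_δ (x : List A) (φ : H A) : inner ℂ (δ x) φ = φ x := by
  unfold δ
  rw [lp.inner_single_left]
  simp

lemma C_δ_nil (k : A) : C k (δ []) = 0 := by
  ext x
  simp [δ, lp.single_apply]

lemma C_δ_cons (k c : A) (x : List A) : C k (δ (c :: x)) = if c = k then δ x else 0 := by
  ext y
  by_cases h : c = k
  · subst h
    by_cases h2 : y = x
    · subst h2; simp [δ, lp.single_apply]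
    · simp [δ, lp.single_apply, h2]
  · simp [δ, lp.single_apply, h, Ne.symm h]

lemma S_nil (k : A) (φ : H A) : S k φ [] = 0 := by
  rw [← inner_δ, S, ContinuousLinearMap.adjoint_inner_right, C_δ_nil, inner_zero_left]

lemma S_cons (k c : A) (φ : H A) (x : List A) :
    S k φ (c :: x) = if c = k then φ x else 0 := by
  rw [← inner_δ, S, ContinuousLinearMap.adjoint_inner_right, C_δ_cons]
  split_ifs
  · rw [inner_δ]
  · rw [inner_zero_left]

omit [Fintype A] [DecidableEq A] in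
lemma cadd (f g : H A) (x : List A) : (f + g : H A) x = f x + g x := rfl
omit [Fintype A] [DecidableEq A] in
lemma csub (f g : H A) (x : List A) : (f - g : H A) x = f x - g x := rfl
omit [Fintype A] [DecidableEq A] in
lemma csmul (c : ℂ) (f : H A) (x : List A) : (c • f : H A) x = c * f x := rfl
omit [DecidableEq A] in
lemma csum (f : A → H A) (x : List A) : (∑ k, f k : H A) x = ∑ k, f k x := by
  rw [lp.coeFn_sum]
  simp

/-- diagonal operators -/
def Dg (r : ℂ) (d : A → ℂ) : H A →L[ℂ] H A :=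
  r • (1 - ∑ k, (S k) ∘L (C k)) + ∑ k : A, d k • ((S k) ∘L (C k))

lemma Dg_apply (r : ℂ) (d : A → ℂ) (φ : H A) : Dg r d φ =
    r • (φ - ∑ k, S k (C k φ)) + ∑ k, d k • S k (C k φ) := by
  simp only [Dg, add_apply, smul_apply, sub_apply, one_apply_eq_self,
    ContinuousLinearMap.sum_apply, ContinuousLinearMap.comp_apply]

lemma Dg_nil (r : ℂ) (d : A → ℂ) (φ : H A) : Dg r d φ [] = r * φ [] := by
  rw [Dg_apply, cadd, csmul, csub, csum, csum]
  simp [csmul, S_nil]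

lemma Dg_cons (r : ℂ) (d : A → ℂ) (φ : H A) (c : A) (x : List A) :
    Dg r d φ (c :: x) = d c * φ (c :: x) := by
  rw [Dg_apply, cadd, csmul, csub, csum, csum]
  simp [csmul, S_cons]

/-- creation part -/
def Kop (ξ : A → ℂ) : H A →L[ℂ] H A := ∑ k, ξ k • S k

/-- annihilation part -/
def Bop (ξ : A → ℂ) : H A →L[ℂ] H A := ∑ k, ξ k • C k

lemma Kop_nil (ξ : A → ℂ) (φ : H A) : Kop ξ φ [] = 0 := by
  rw [Kop, ContinuousLinearMap.sum_apply, csum]
  simp [csmul, S_nil]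

lemma Kop_cons (ξ : A → ℂ) (φ : H A) (c : A) (x : List A) : Kop ξ φ (c :: x) = ξ c * φ x := by
  rw [Kop, ContinuousLinearMap.sum_apply, csum]
  simp [csmul, S_cons]

lemma Bop_apply (ξ : A → ℂ) (φ : H A) (x : List A) : Bop ξ φ x = ∑ k, ξ k * φ (k :: x) := by
  rw [Bop, ContinuousLinearMap.sum_apply, csum]
  simp [csmul]

/-- the operator, `r` the value of the potential at the root, `d k` the value at the other
vertices of label `k` -/
def Tp (r : ℂ) (d : A → ℂ) : H A →L[ℂ] H A := Dg r d + Bop (fun _ => 1) + Kop (fun _ => 1)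

lemma Tp_nil (r : ℂ) (d : A → ℂ) (φ : H A) : Tp r d φ [] = r * φ [] + ∑ k, φ [k] := by
  rw [Tp, add_apply, add_apply, cadd, cadd, Dg_nil, Kop_nil, Bop_apply]
  simp

lemma Tp_cons (r : ℂ) (d : A → ℂ) (φ : H A) (c : A) (x : List A) :
    Tp r d φ (c :: x) = d c * φ (c :: x) + (∑ k, φ (k :: c :: x) + φ x) := by
  rw [Tp, add_apply, add_apply, cadd, cadd, Dg_cons, Kop_cons, Bop_apply]
  simp
  ring

/-- the factorization -/
lemma factor (r : ℂ) (w : A → ℂ) (u E : ℂ) (hu : ∀ k, u ≠ w k)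
    (hE : u + ∑ k, 1 / (u - w k) = E) :
    (1 + Bop (fun k => -(1 / (u - w k)))) * (Dg (u - r) (fun k => u - w k) *
      (1 + Kop (fun k => -(1 / (u - w k))))) = E • (1 : H A →L[ℂ] H A) - Tp r w := by
  have hne : ∀ k, u - w k ≠ 0 := fun k => sub_ne_zero.2 (hu k)
  ext φ x
  rw [ContinuousLinearMap.mul_apply, ContinuousLinearMap.mul_apply]
  set χ : H A := (1 + Kop (fun k => -(1 / (u - w k)))) φ with hχ
  have hχ0 : χ [] = φ [] := by
    rw [hχ, add_apply, one_apply_eq_self, cadd, Kop_nil, add_zero]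
  have hχc : ∀ c y, χ (c :: y) = φ (c :: y) - 1 / (u - w c) * φ y := by
    intro c y
    rw [hχ, add_apply, one_apply_eq_self, cadd, Kop_cons]
    ring
  have hsum : ∀ y, ∑ k, -(1 / (u - w k)) * (Dg (u - r) (fun k => u - w k) χ (k :: y)) =
      -∑ k, φ (k :: y) + (∑ k, 1 / (u - w k)) * φ y := by
    intro y
    rw [Finset.sum_mul, ← Finset.sum_neg_distrib, ← Finset.sum_add_distrib]
    apply Finset.sum_congr rfl
    intro k _
    rw [Dg_cons, hχc]
    have := hne k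
    field_simp
    ring
  rw [add_apply, one_apply_eq_self, cadd, Bop_apply, hsum, sub_apply, smul_apply,
    one_apply_eq_self, csub, csmul, ← hE]
  cases x with
  | nil =>
    rw [Dg_nil, Tp_nil, hχ0]
    ring
  | cons c x =>
    rw [Dg_cons, Tp_cons, hχc]
    have := hne c
    have e : (u - w c) * (φ (c :: x) - 1 / (u - w c) * φ x) = (u - w c) * φ (c :: x) - φ x := by
      field_simp
    rw [e]
    ring

lemma C_Kop (ξ : A → ℂ) (k : A) (φ : H A) : C k (Kop ξ φ) = ξ k • φ := by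
  ext x
  rw [C_apply, Kop_cons, csmul]

lemma norm_Kop (ξ : A → ℂ) (φ : H A) : ‖Kop ξ φ‖ ^ 2 = (∑ k, ‖ξ k‖ ^ 2) * ‖φ‖ ^ 2 := by
  rw [norm_split', Kop_nil]
  simp only [C_Kop, norm_smul, mul_pow]
  rw [Finset.sum_mul]
  simp

lemma isUnit_Dg (r : ℂ) (d : A → ℂ) (hr : r ≠ 0) (hd : ∀ k, d k ≠ 0) : IsUnit (Dg r d) := by
  have h : ∀ (r r' : ℂ) (d d' : A → ℂ), r * r' = 1 → (∀ k, d k * d' k = 1) →
      Dg r d * Dg r' d' = 1 := by
    intro r r' d d' h1 h2
    ext φ x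
    rw [ContinuousLinearMap.mul_apply, one_apply_eq_self]
    cases x with
    | nil => rw [Dg_nil, Dg_nil, ← mul_assoc, h1, one_mul]
    | cons c x => rw [Dg_cons, Dg_cons, ← mul_assoc, h2, one_mul]
  exact ⟨⟨Dg r d, Dg r⁻¹ (fun k => (d k)⁻¹), h _ _ _ _ (mul_inv_cancel₀ hr)
    (fun k => mul_inv_cancel₀ (hd k)), h _ _ _ _ (inv_mul_cancel₀ hr)
    (fun k => inv_mul_cancel₀ (hd k))⟩, rfl⟩

lemma isUnit_one_add {T : H A →L[ℂ] H A} (h : ‖T‖ < 1) : IsUnit (1 + T) := by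
  have h1 : ‖-T‖ < 1 := by rwa [norm_neg]
  have := isUnit_one_sub_of_norm_lt_one h1
  rwa [sub_neg_eq_add] at this

lemma adjoint_Kop (ξ : A → ℝ) : ContinuousLinearMap.adjoint (Kop (fun k => (ξ k : ℂ)) : H A →L[ℂ] H A) =
    Bop (fun k => (ξ k : ℂ)) := by
  rw [Kop, Bop, map_sum]
  apply Finset.sum_congr rfl
  intro k _
  rw [map_smulₛₗ, S, ContinuousLinearMap.adjoint_adjoint, Complex.conj_ofReal]

lemma norm_Kop_lt (ξ : A → ℂ) (h : ∑ k, ‖ξ k‖ ^ 2 < 1) : ‖(Kop ξ : H A →L[ℂ] H A)‖ < 1 := by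
  have h0 : 0 ≤ ∑ k, ‖ξ k‖ ^ 2 := Finset.sum_nonneg fun k _ => by positivity
  have h1 : ‖(Kop ξ : H A →L[ℂ] H A)‖ ≤ √(∑ k, ‖ξ k‖ ^ 2) := by
    apply ContinuousLinearMap.opNorm_le_bound _ (Real.sqrt_nonneg _)
    intro φ
    have h2 := norm_Kop ξ φ
    rw [← Real.sq_sqrt h0, ← mul_pow] at h2
    exact ((sq_eq_sq₀ (norm_nonneg _) (mul_nonneg (Real.sqrt_nonneg _) (norm_nonneg _))).1 h2).le
  refine h1.trans_lt ?_
  rw [Real.sqrt_lt' one_pos]
  simpa using h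

lemma not_mem_spec (r : ℝ) (w : A → ℝ) (u : ℝ) (hr : u ≠ r) (hu : ∀ k, u ≠ w k)
    (hP : ∑ k, 1 / (u - w k) ^ 2 < 1) {E : ℝ} (hE : u + ∑ k, 1 / (u - w k) = E) :
    (E : ℂ) ∉ spectrum ℂ (Tp (r : ℂ) (fun k => (w k : ℂ)) : H A →L[ℂ] H A) := by
  have hfac := factor (A := A) (r : ℂ) (fun k => (w k : ℂ)) (u : ℂ) (E : ℂ)
    (fun k h => hu k (by exact_mod_cast h)) (by rw [← hE]; push_cast; rfl)
  have hξ : (fun k => -(1 / ((u : ℂ) - (w k : ℂ)))) = fun k => ((-(1 / (u - w k)) : ℝ) : ℂ) := by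
    funext k
    push_cast
    rfl
  have hsum : ∑ k, ‖((-(1 / (u - w k)) : ℝ) : ℂ)‖ ^ 2 < 1 := by
    have : ∀ k, ‖((-(1 / (u - w k)) : ℝ) : ℂ)‖ ^ 2 = 1 / (u - w k) ^ 2 := by
      intro k
      rw [Complex.norm_real, Real.norm_eq_abs, sq_abs, neg_sq, one_div_pow]
    simp only [this]
    exact hP
  have hK := norm_Kop_lt _ hsum
  have hB : ‖(Bop (fun k => ((-(1 / (u - w k)) : ℝ) : ℂ)) : H A →L[ℂ] H A)‖ < 1 := by
    rw [← adjoint_Kop, LinearIsometryEquiv.norm_map]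
    exact hK
  rw [spectrum.mem_iff, not_not, Algebra.algebraMap_eq_smul_one, ← hfac, hξ]
  refine (isUnit_one_add hB).mul ((isUnit_Dg _ _ ?_ ?_).mul (isUnit_one_add hK))
  · exact sub_ne_zero.2 (by exact_mod_cast hr)
  · intro k
    exact sub_ne_zero.2 (by exact_mod_cast hu k)

/-! ### points of the spectrum -/

/-- generations -/
def v (ξ : A → ℂ) : ℕ → H A
  | 0 => δ []
  | n + 1 => -Kop ξ (v ξ n)

/-- sums of the first generations -/
def ψ (ξ : A → ℂ) : ℕ → H A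
  | 0 => δ []
  | n + 1 => δ [] - Kop ξ (ψ ξ n)

lemma ψ_succ (ξ : A → ℂ) (n : ℕ) : ψ ξ (n + 1) = ψ ξ n + v ξ (n + 1) := by
  induction n with
  | zero =>
    show δ [] - Kop ξ (δ []) = δ [] + -Kop ξ (δ [])
    abel
  | succ n ih =>
    have h1 : ψ ξ (n + 1 + 1) = δ [] - Kop ξ (ψ ξ (n + 1)) := rfl
    have h2 : ψ ξ (n + 1) = δ [] - Kop ξ (ψ ξ n) := rfl
    have h3 : v ξ (n + 1 + 1) = -Kop ξ (v ξ (n + 1)) := rfl
    rw [h1, h3, ih, map_add, ← sub_sub, ← h2, ih]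
    abel

lemma δ_nil_nil : (δ [] : H A) [] = 1 := by
  simp [δ]

lemma norm_δ : ‖(δ [] : H A)‖ ^ 2 = 1 := by
  rw [norm_split', δ_nil_nil]
  simp [C_δ_nil]

lemma norm_v (ξ : A → ℂ) (h : ∑ k, ‖ξ k‖ ^ 2 = 1) (n : ℕ) : ‖v ξ n‖ ^ 2 = 1 := by
  induction n with
  | zero => exact norm_δ
  | succ n ih =>
    have h1 : v ξ (n + 1) = -Kop ξ (v ξ n) := rfl
    rw [h1, norm_neg, norm_Kop, h, ih, one_mul]

lemma norm_ψ (ξ : A → ℂ) (h : ∑ k, ‖ξ k‖ ^ 2 = 1) (n : ℕ) : ‖ψ ξ n‖ ^ 2 = n + 1 := by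
  induction n with
  | zero =>
    have : ‖ψ ξ 0‖ ^ 2 = 1 := norm_δ
    simpa using this
  | succ n ih =>
    have h1 : ψ ξ (n + 1) = δ [] - Kop ξ (ψ ξ n) := rfl
    have h2 : ∀ k, C k (δ [] - Kop ξ (ψ ξ n)) = -(ξ k • ψ ξ n) := by
      intro k
      rw [map_sub, C_δ_nil, C_Kop, zero_sub]
    rw [h1, norm_split', csub, Kop_nil, δ_nil_nil]
    simp only [h2, norm_neg, norm_smul, mul_pow]
    rw [← Finset.sum_mul, h, ih]
    push_cast
    simp
    ring

lemma mem_spec (r : ℂ) (w : A → ℂ) (u E : ℂ) (hu : ∀ k, u ≠ w k)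
    (hE : u + ∑ k, 1 / (u - w k) = E) (hn : ∑ k, ‖1 / (u - w k)‖ ^ 2 = 1) :
    E ∈ spectrum ℂ (Tp r w : H A →L[ℂ] H A) := by
  intro hU
  rw [spectrum.mem_resolventSet_iff, Algebra.algebraMap_eq_smul_one, ← factor r w u E hu hE] at hU
  set ξ : A → ℂ := fun k => -(1 / (u - w k)) with hξ
  have hξn : ∑ k, ‖ξ k‖ ^ 2 = 1 := by
    rw [hξ]
    simp only [norm_neg]
    exact hn
  set L : H A →L[ℂ] H A := (1 + Bop ξ) * Dg (u - r) (fun k => u - w k) with hL
  rw [← mul_assoc, ← hL] at hU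
  obtain ⟨U, hU⟩ := hU
  set V : H A →L[ℂ] H A := ↑U⁻¹ with hV
  have hVT : ∀ φ, V (L ((1 + Kop ξ) φ)) = φ := by
    intro φ
    have : (V * (L * (1 + Kop ξ))) φ = φ := by
      rw [← hU, hV, Units.inv_mul]
      rfl
    simpa using this
  have hv1 : ∀ n, ‖v ξ n‖ = 1 := by
    intro n
    have := norm_v ξ hξn n
    nlinarith [norm_nonneg (v ξ n)]
  have hδ : ‖(δ [] : H A)‖ = 1 := hv1 0
  have hbd : ∀ n, ‖(1 + Kop ξ) (ψ ξ n)‖ ≤ 2 := by
    intro n
    have e : (1 + Kop ξ) (ψ ξ n) = δ [] - v ξ (n + 1) := by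
      have h1 : ψ ξ (n + 1) = δ [] - Kop ξ (ψ ξ n) := rfl
      have h2 := ψ_succ ξ n
      rw [add_apply, one_apply_eq_self]
      have h3 : Kop ξ (ψ ξ n) = δ [] - ψ ξ (n + 1) := by rw [h1]; abel
      rw [h3, h2]
      abel
    rw [e]
    calc ‖(δ [] : H A) - v ξ (n + 1)‖ ≤ ‖(δ [] : H A)‖ + ‖v ξ (n + 1)‖ := norm_sub_le _ _
      _ = 2 := by rw [hδ, hv1]; norm_num
  have hlow : ∀ n : ℕ, (n : ℝ) + 1 ≤ (‖V‖ * (‖L‖ * 2)) ^ 2 := by
    intro n
    rw [← norm_ψ ξ hξn n]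
    have h3 : ‖ψ ξ n‖ ≤ ‖V‖ * (‖L‖ * 2) := by
      calc ‖ψ ξ n‖ = ‖V (L ((1 + Kop ξ) (ψ ξ n)))‖ := by rw [hVT]
        _ ≤ ‖V‖ * ‖L ((1 + Kop ξ) (ψ ξ n))‖ := V.le_opNorm _
        _ ≤ ‖V‖ * (‖L‖ * ‖(1 + Kop ξ) (ψ ξ n)‖) :=
          mul_le_mul_of_nonneg_left (L.le_opNorm _) (norm_nonneg _)
        _ ≤ ‖V‖ * (‖L‖ * 2) := by
          apply mul_le_mul_of_nonneg_left _ (norm_nonneg _)
          exact mul_le_mul_of_nonneg_left (hbd n) (norm_nonneg _)
    exact pow_le_pow_left₀ (norm_nonneg _) h3 2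
  obtain ⟨n, hn'⟩ := exists_nat_gt ((‖V‖ * (‖L‖ * 2)) ^ 2)
  have := hlow n
  linarith

lemma selfAdjoint_Tp (r : ℝ) (w : A → ℝ) :
    IsSelfAdjoint (Tp (r : ℂ) (fun k => (w k : ℂ)) : H A →L[ℂ] H A) := by
  rw [ContinuousLinearMap.isSelfAdjoint_iff']
  have hSC : ∀ k : A, ContinuousLinearMap.adjoint ((S k) ∘L (C k) : H A →L[ℂ] H A) =
      (S k) ∘L (C k) := by
    intro k
    rw [ContinuousLinearMap.adjoint_comp, S, ContinuousLinearMap.adjoint_adjoint]
  have h1 : ContinuousLinearMap.adjoint (Dg (r : ℂ) (fun k => (w k : ℂ)) : H A →L[ℂ] H A) =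
      Dg (r : ℂ) (fun k => (w k : ℂ)) := by
    rw [Dg, map_add, map_smulₛₗ, map_sub, map_sum, map_sum]
    simp only [map_smulₛₗ, hSC, Complex.conj_ofReal]
    congr 3
    exact ContinuousLinearMap.adjoint_id
  have h2 := adjoint_Kop (A := A) (fun _ => 1)
  simp only [Complex.ofReal_one] at h2
  have h3 : ContinuousLinearMap.adjoint (Bop (fun _ => 1) : H A →L[ℂ] H A) =
      Kop (fun _ => 1) := by
    rw [← h2, ContinuousLinearMap.adjoint_adjoint]
  rw [Tp, map_add, map_add, h1, h2, h3]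
  abel

/-- the set of the points where `ph` is increasing -/
def Zlt {N : ℕ} (w : Fin (N + 1) → ℝ) : Set ℝ := {x | NP w x ∧ PP w x < 1}

theorem spec_eq {N : ℕ} (w : Fin (N + 1) → ℝ) (hw : Function.Injective w) (j : Fin (N + 1)) :
    spectrum ℂ (Tp ((w j : ℝ) : ℂ) (fun k => (w k : ℂ)) : H (Fin (N + 1)) →L[ℂ] H (Fin (N + 1))) =
      (fun x : ℝ => (x : ℂ)) '' {E : ℝ | ∀ x ∈ Zlt w, ph w x ≠ E} := by
  apply Set.Subset.antisymm
  · intro z hz
    have hre : z = z.re := (selfAdjoint_Tp (w j) w).mem_spectrum_eq_re hz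
    refine ⟨z.re, ?_, hre.symm⟩
    intro x hx hxE
    rw [hre] at hz
    exact not_mem_spec (w j) w x (hx.1 j) hx.1 hx.2 hxE hz
  · rintro _ ⟨E, hE, rfl⟩
    by_cases h : ∃ u : ℂ, 0 < u.im ∧ phC w u = E
    · obtain ⟨u, hu, huE⟩ := h
      refine mem_spec _ _ u _ ?_ huE (norm_rel w hu huE)
      intro k hk
      rw [hk] at hu
      simp at hu
    · push Not at h
      obtain ⟨x, hx, hxE, hxP⟩ := exists_crit hw E h
      have hP1 : PP w x = 1 := by
        rcases hxP.eq_or_lt with h1 | h1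
        · exact h1
        · exact absurd hxE (hE x ⟨hx, h1⟩)
      refine mem_spec _ _ (x : ℂ) _ ?_ ?_ ?_
      · intro k hk
        exact hx k (by exact_mod_cast hk)
      · have := phC_ofReal w x
        rw [hxE] at this
        exact this
      · rw [← hP1, PP]
        apply Finset.sum_congr rfl
        intro k _
        have : (1 : ℂ) / ((x : ℂ) - (w k : ℂ)) = ((1 / (x - w k) : ℝ) : ℂ) := by push_cast; rfl
        rw [this, Complex.norm_real, Real.norm_eq_abs, sq_abs, one_div_pow]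

end Pool.Agent.KS6_57.CU
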