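import Mathlib
import Pool.Agent.KS6_57.CU.Op

/-! The tree of the words over a finite alphabet. -/

noncomputable section

namespace Pool.Agent.KS6_57.CU

variable {A : Type}

/-- the rooted tree on words: the neighbours of a word are obtained by adding a letter in
front or by removing the first letter -/
def wt (A : Type) : SimpleGraph (List A) where
  Adj x y := (∃ k, x = k :: y) ∨ (∃ k, y = k :: x)
  symm := ⟨fun x y h => h.symm⟩
  loopless := ⟨fun x h => by
    rcases h with ⟨k, h⟩ | ⟨k, h⟩ <;>
    · have := congrArg List.length h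
      simp at this⟩

lemma wt_adj {x y : List A} : (wt A).Adj x y ↔ (∃ k, x = k :: y) ∨ (∃ k, y = k :: x) := Iff.rfl

lemma reach (x : List A) : (wt A).Reachable [] x := by
  induction x with
  | nil => exact SimpleGraph.Reachable.refl _
  | cons k x ih => exact ih.trans (SimpleGraph.Adj.reachable (wt_adj.2 (Or.inr ⟨k, rfl⟩)))

lemma suffix_step {x y v w : List A} {k : A} (hw : w = k :: v)
    (h : ((wt A).deleteEdges {s(v, w)}).Adj x y) : (w <:+ x ↔ w <:+ y) := by
  rw [SimpleGraph.deleteEdges_adj] at h
  obtain ⟨h, hne⟩ := h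
  have main : ∀ (x y : List A) (c : A), x = c :: y → s(x, y) ≠ s(v, w) →
      (w <:+ x ↔ w <:+ y) := by
    intro x y c hxy hn
    rw [hxy, List.suffix_cons_iff]
    constructor
    · rintro (h | h)
      · exfalso
        apply hn
        rw [hw] at h
        have h2 : v = y := (List.cons.inj h).2
        rw [hxy, hw, h, h2]
        exact Sym2.eq_swap
      · exact h
    · exact Or.inr
  rcases h with ⟨c, hc⟩ | ⟨c, hc⟩
  · exact main x y c hc (by simpa using hne)
  · refine (main y x c hc ?_).symm
    rw [Sym2.eq_swap]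
    simpa using hne

lemma wt_isTree : (wt A).IsTree := by
  refine ⟨⟨fun x y => (reach x).symm.trans (reach y)⟩, ?_⟩
  rw [SimpleGraph.isAcyclic_iff_forall_adj_isBridge]
  have main : ∀ (v w : List A) (k : A), w = k :: v →
      ¬ ((wt A).deleteEdges {s(v, w)}).Reachable v w := by
    intro v w k hw hr
    have : ∀ (x y : List A), ((wt A).deleteEdges {s(v, w)}).Walk x y → (w <:+ x ↔ w <:+ y) := by
      intro x y p
      induction p with
      | nil => exact Iff.rfl
      | cons h _ ih => exact (suffix_step hw h).trans ih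
    obtain ⟨p⟩ := hr
    have h1 := (this v w p).2 (List.suffix_refl w)
    have h2 := h1.length_le
    rw [hw] at h2
    simp at h2
  intro v w h
  rw [SimpleGraph.isBridge_iff]
  rcases h with ⟨k, hk⟩ | ⟨k, hk⟩
  · intro hr
    rw [Sym2.eq_swap] at hr
    exact main w v k hk hr.symm
  · exact main v w k hk

lemma walk_length {x y : List A} (p : (wt A).Walk x y) : y.length ≤ x.length + p.length := by
  induction p with
  | nil => simp
  | cons h p ih =>
    rw [SimpleGraph.Walk.length_cons]
    rcases h with ⟨k, hk⟩ | ⟨k, hk⟩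
    · rw [hk]
      simp
      omega
    · have h3 := congrArg List.length hk
      rw [List.length_cons] at h3
      omega

lemma dist_eq (y : List A) : (wt A).dist [] y = y.length := by
  apply le_antisymm
  · induction y with
    | nil => simp
    | cons k y ih =>
      have h1 : (wt A).dist [] (k :: y) ≤ (wt A).dist [] y + (wt A).dist y (k :: y) :=
        SimpleGraph.Connected.dist_triangle wt_isTree.1
      have h2 : (wt A).dist y (k :: y) = 1 :=
        SimpleGraph.dist_eq_one_iff_adj.2 (wt_adj.2 (Or.inr ⟨k, rfl⟩))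
      rw [List.length_cons]
      omega
  · obtain ⟨p, hp⟩ := (reach y).exists_walk_length_eq_dist
    rw [← hp]
    have := walk_length p
    simpa using this

/-- the label of a word: the label of the first letter -/
def wl {L : Type} (lab : A → L) (j : L) : List A → L
  | [] => j
  | k :: _ => lab k

lemma children {L : Type} (lab : A → L) (j l : L) (x : List A) :
    {y | (wt A).Adj x y ∧ (wt A).dist [] y = (wt A).dist [] x + 1 ∧ wl lab j y = l} =
      (fun k => k :: x) '' {k | lab k = l} := by
  ext y
  rw [Set.mem_ofPred_eq, Set.mem_image, dist_eq, dist_eq]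
  constructor
  · rintro ⟨h1, h2, h3⟩
    rcases h1 with ⟨k, hk⟩ | ⟨k, hk⟩
    · rw [hk] at h2
      simp at h2
      omega
    · rw [hk] at h3
      exact ⟨k, h3, hk.symm⟩
  · rintro ⟨k, hk, rfl⟩
    exact ⟨wt_adj.2 (Or.inr ⟨k, rfl⟩), by simp, hk⟩

/-- `1` on the edges -/
def t0 (x y : List A) : ℂ := by
  classical
  exact if (wt A).Adj x y then 1 else 0

lemma t0_adj {x y : List A} (h : (wt A).Adj x y) : t0 x y = 1 := by
  simp [t0, h]

lemma t0_not {x y : List A} (h : ¬ (wt A).Adj x y) : t0 x y = 0 := by
  simp [t0, h]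

variable [Fintype A] [DecidableEq A]

omit [DecidableEq A] in
lemma sum_nil (φ : List A → ℂ) : (∑ᶠ (y : List A) (_ : (wt A).Adj [] y), t0 [] y * φ y) =
    ∑ k, φ [k] := by
  classical
  have h : ∀ y, (wt A).Adj [] y ↔
      y ∈ (↑(Finset.univ.image (fun k : A => [k])) : Set (List A)) := by
    intro y
    rw [wt_adj]
    constructor
    · rintro (⟨k, hk⟩ | ⟨k, hk⟩)
      · simp at hk
      · rw [hk]
        simp
    · intro hy
      simp only [Finset.coe_image, Finset.coe_univ, Set.image_univ, Set.mem_range] at hy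
      obtain ⟨k, rfl⟩ := hy
      exact Or.inr ⟨k, rfl⟩
  have e : (∑ᶠ (y : List A) (_ : (wt A).Adj [] y), t0 [] y * φ y) =
      ∑ᶠ (y : List A) (_ : y ∈ (↑(Finset.univ.image (fun k : A => [k])) : Set (List A))),
        t0 [] y * φ y := by
    simp only [h]
  rw [e, finsum_mem_coe_finset, Finset.sum_image (by
    intro a _ b _ hab
    simpa using hab)]
  apply Finset.sum_congr rfl
  intro k _
  rw [t0_adj (wt_adj.2 (Or.inr ⟨k, rfl⟩)), one_mul]

lemma sum_cons (φ : List A → ℂ) (c : A) (x : List A) :
    (∑ᶠ (y : List A) (_ : (wt A).Adj (c :: x) y), t0 (c :: x) y * φ y) =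
    ∑ k, φ (k :: c :: x) + φ x := by
  have h : ∀ y, (wt A).Adj (c :: x) y ↔
      y ∈ (↑(insert x (Finset.univ.image (fun k : A => k :: c :: x))) : Set (List A)) := by
    intro y
    rw [wt_adj]
    constructor
    · rintro (⟨k, hk⟩ | ⟨k, hk⟩)
      · rw [(List.cons.inj hk).2]
        simp
      · rw [hk]
        simp
    · intro hy
      simp only [Finset.coe_insert, Finset.coe_image, Finset.coe_univ, Set.image_univ,
        Set.mem_insert_iff, Set.mem_range] at hy
      rcases hy with rfl | ⟨k, rfl⟩
      · exact Or.inl ⟨c, rfl⟩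
      · exact Or.inr ⟨k, rfl⟩
  have e : (∑ᶠ (y : List A) (_ : (wt A).Adj (c :: x) y), t0 (c :: x) y * φ y) =
      ∑ᶠ (y : List A) (_ : y ∈ (↑(insert x (Finset.univ.image (fun k : A => k :: c :: x))) :
        Set (List A))), t0 (c :: x) y * φ y := by
    simp only [h]
  have n1 : x ∉ Finset.univ.image (fun k : A => k :: c :: x) := by
    intro h1
    rw [Finset.mem_image] at h1
    obtain ⟨k, _, hk⟩ := h1
    have := congrArg List.length hk
    simp at this
    omega
  rw [e, finsum_mem_coe_finset, Finset.sum_insert n1, Finset.sum_image (by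
    intro a _ b _ hab
    simpa using hab), t0_adj (wt_adj.2 (Or.inl ⟨c, rfl⟩)), one_mul, add_comm]
  congr 1
  apply Finset.sum_congr rfl
  intro k _
  rw [t0_adj (wt_adj.2 (Or.inr ⟨k, rfl⟩)), one_mul]

end Pool.Agent.KS6_57.CU
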