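import Mathlib
import Pool.Agent.KS6_57.CU.Comp
import Pool.Agent.KS6_57.CU.Op
import Pool.Agent.KS6_57.CU.Tree

/-! Prescribed numbers of components. -/

open Filter Topology

noncomputable section

namespace Pool.Agent.KS6_57.CU

variable {N : ℕ}

lemma inv_sq_convex {a b θ : ℝ} (ha : 0 < a) (hb : 0 < b) (h0 : 0 ≤ θ) (h1 : θ ≤ 1) :
    1 / ((1 - θ) * a + θ * b) ^ 2 ≤ (1 - θ) * (1 / a ^ 2) + θ * (1 / b ^ 2) := by
  have h := (convexOn_zpow (𝕜 := ℝ) (-2)).2 (Set.mem_Ioi.2 ha) (Set.mem_Ioi.2 hb)
    (by linarith : 0 ≤ 1 - θ) h0 (by ring)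
  simp only [smul_eq_mul, zpow_neg] at h
  simpa [one_div] using h

lemma PP_quasi {w : Fin (N + 1) → ℝ} (hw : Monotone w) {l : Fin N} {x y z : ℝ}
    (hl1 : w l.castSucc < x) (hl2 : z < w l.succ) (hxy : x ≤ y) (hyz : y ≤ z) :
    PP w y ≤ max (PP w x) (PP w z) := by
  rcases hxy.eq_or_lt with h | hxy'
  · rw [h]
    exact le_max_left _ _
  have hxz : 0 < z - x := by linarith
  set θ : ℝ := (y - x) / (z - x) with hθ
  have h0 : 0 ≤ θ := div_nonneg (by linarith) hxz.le
  have h1 : θ ≤ 1 := by
    rw [hθ, div_le_one hxz]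
    linarith
  have hy : y = (1 - θ) * x + θ * z := by
    rw [hθ]
    field_simp
    ring
  have h2 : PP w y ≤ (1 - θ) * PP w x + θ * PP w z := by
    unfold PP
    rw [Finset.mul_sum, Finset.mul_sum, ← Finset.sum_add_distrib]
    apply Finset.sum_le_sum
    intro k _
    rcases fin_le_or l k with h | h
    · have h3 := hw h
      have h4 := inv_sq_convex (a := x - w k) (b := z - w k) (by linarith) (by linarith) h0 h1
      have e : (1 - θ) * (x - w k) + θ * (z - w k) = y - w k := by
        rw [hy]
        ring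
      rw [e] at h4
      exact h4
    · have h3 := hw h
      have h4 := inv_sq_convex (a := w k - x) (b := w k - z) (by linarith) (by linarith) h0 h1
      have e : (1 - θ) * (w k - x) + θ * (w k - z) = -(y - w k) := by
        rw [hy]
        ring
      rw [e, neg_sq] at h4
      rw [show (x - w k) ^ 2 = (w k - x) ^ 2 by ring, show (z - w k) ^ 2 = (w k - z) ^ 2 by ring]
      exact h4
  have h3 := le_max_left (PP w x) (PP w z)
  have h4 := le_max_right (PP w x) (PP w z)
  nlinarith

lemma PP_left {w : Fin (N + 1) → ℝ} (hw : Monotone w) {x y : ℝ} (hy : y < w 0) (hxy : x ≤ y) :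
    PP w x ≤ PP w y := by
  unfold PP
  apply Finset.sum_le_sum
  intro k _
  have h1 := hw (Fin.zero_le k)
  rw [show (x - w k) ^ 2 = (w k - x) ^ 2 by ring, show (y - w k) ^ 2 = (w k - y) ^ 2 by ring]
  have h2 : 0 < w k - y := by linarith
  apply one_div_le_one_div_of_le (by positivity)
  exact pow_le_pow_left₀ h2.le (by linarith) 2

lemma PP_right {w : Fin (N + 1) → ℝ} (hw : Monotone w) {x y : ℝ} (hx : w (Fin.last N) < x)
    (hxy : x ≤ y) : PP w y ≤ PP w x := by
  unfold PP
  apply Finset.sum_le_sum
  intro k _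
  have h1 := hw (Fin.le_last k)
  have h2 : 0 < x - w k := by linarith
  apply one_div_le_one_div_of_le (by positivity)
  exact pow_le_pow_left₀ h2.le (by linarith) 2

lemma good_of (w : Fin (N + 1) → ℝ) (hw : StrictMono w) (u : Fin N → ℝ)
    (hu : ∀ i : Fin N, w i.castSucc < u i ∧ u i < w i.succ) (r : ℕ) (hr : r ≤ N) (R : ℝ → Prop)
    (hR : ∀ s t, s ≤ t → R t → R s) (hR1 : ∀ s, R s → s ≤ 1)
    (h1 : ∀ i : Fin N, (i : ℕ) < r → R (PP w (u i)))
    (h2 : ∀ i : Fin N, r ≤ (i : ℕ) → ∀ x, w i.castSucc < x → x < w i.succ → ¬ R (PP w x)) :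
    Good w u r {x | NP w x ∧ R (PP w x)} where
  hr := hr
  hsep := hu
  hle := fun x hx => ⟨hx.1, hR1 _ hx.2⟩
  hconv := by
    intro l x y z hx hz hxy hyz hxZ hzZ
    refine ⟨ne_pole hw.monotone (by linarith) (by linarith), ?_⟩
    rcases le_max_iff.1 (PP_quasi hw.monotone hx hz hxy hyz) with h | h
    · exact hR _ _ h hxZ.2
    · exact hR _ _ h hzZ.2
  hleft := by
    intro x y hy hxy hyZ
    refine ⟨?_, hR _ _ (PP_left hw.monotone hy hxy) hyZ.2⟩
    intro k
    have := hw.monotone (Fin.zero_le k)
    have : x < w k := by linarith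
    exact this.ne
  hright := by
    intro x y hx hxy hxZ
    refine ⟨?_, hR _ _ (PP_right hw.monotone hx hxy) hxZ.2⟩
    intro k
    have := hw.monotone (Fin.le_last k)
    have : w k < y := by linarith
    exact this.ne'
  hu := fun i hi => ⟨ne_pole hw.monotone (hu i).1 (hu i).2, h1 i hi⟩
  he := fun i hi x hx1 hx2 hx => h2 i hi x hx1 hx2 hx.2

theorem exists_potential (N a b : ℕ) (hb : 1 ≤ b) (hba : b ≤ a) (ha : a ≤ N + 1) :
    ∃ w : Fin (N + 1) → ℝ, StrictMono w ∧ Nat.card (ConnectedComponents (SS w (Zle w))) = a ∧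
      Nat.card (ConnectedComponents (SS w (Zlt w))) = b := by
  let c : Fin N → ℝ := fun i => if (i : ℕ) < b - 1 then 1 / 2 else if (i : ℕ) < a - 1 then 1 else 2
  have hc : ∀ i, c i = if (i : ℕ) < b - 1 then 1 / 2 else if (i : ℕ) < a - 1 then 1 else 2 :=
    fun i => rfl
  obtain ⟨w, hw, hfe, hex⟩ := exists_conf c
    (by intro i; rw [hc]; split_ifs <;> norm_num) (by intro i; rw [hc]; split_ifs <;> norm_num)
  choose u hu1 hu2 hu3 using hex
  refine ⟨w, hw, ?_, ?_⟩
  · have hG : Good w u (a - 1) (Zle w) := by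
      apply good_of w hw u (fun i => ⟨hu1 i, hu2 i⟩) (a - 1) (by omega) (fun s => s ≤ 1)
      · intro s t hst ht
        exact hst.trans ht
      · exact fun s hs => hs
      · intro i hi
        rw [hu3, hc]
        split_ifs <;> norm_num
      · intro i hi x hx1 hx2 hle
        have h := hfe i x hx1 hx2
        rw [hc, if_neg (by omega), if_neg (by omega)] at h
        linarith
    rw [components hw hG]
    omega
  · have hG : Good w u (b - 1) (Zlt w) := by
      apply good_of w hw u (fun i => ⟨hu1 i, hu2 i⟩) (b - 1) (by omega) (fun s => s < 1)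
      · intro s t hst ht
        exact hst.trans_lt ht
      · exact fun s hs => hs.le
      · intro i hi
        rw [hu3, hc, if_pos hi]
        norm_num
      · intro i hi x hx1 hx2 hle
        have h := hfe i x hx1 hx2
        rw [hc, if_neg (by omega)] at h
        split_ifs at h <;> linarith
    rw [components hw hG]
    omega

lemma inv_im_pos (z : ℂ) (hz : 0 < z.im) : 0 < (-1 / z).im := by
  have h0 : z ≠ 0 := by
    rintro rfl
    simp at hz
  have h1 : 0 < Complex.normSq z := Complex.normSq_pos.2 h0
  rw [neg_div, one_div, Complex.neg_im, Complex.inv_im]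
  rw [neg_div, neg_neg]
  exact div_pos hz h1

lemma sigma_iff {w : Fin (N + 1) → ℝ} (hw : Function.Injective w) (E : ℝ) :
    (∃ ξ : Fin (N + 1) → ℂ, (∀ j, 0 < (ξ j).im) ∧
      ∀ j, ξ j * (E - w j + ∑ k, ((1 : ℝ) : ℂ) * ξ k) + 1 = 0) ↔ E ∈ SS w (Zle w) := by
  constructor
  · rintro ⟨ξ, him, h⟩ x hx hxE
    set u : ℂ := E + ∑ k, ξ k with hu
    have huim : 0 < u.im := by
      rw [hu, Complex.add_im, Complex.ofReal_im, zero_add, Complex.im_sum]
      exact Finset.sum_pos (fun k _ => him k) Finset.univ_nonempty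
    have h1 : ∀ j, ξ j * (u - w j) = -1 := by
      intro j
      have := h j
      simp only [Complex.ofReal_one, one_mul] at this
      rw [hu]
      linear_combination this
    have h2 : ∀ j, 1 / (u - w j) = -ξ j := by
      intro j
      have h3 : u - w j ≠ 0 := by
        intro h0
        have := h1 j
        rw [h0, mul_zero] at this
        norm_num at this
      rw [div_eq_iff h3]
      linear_combination h1 j
    apply not_sigma w hx.1 hx.2 huim
    rw [hxE, phC]
    simp only [h2, Finset.sum_neg_distrib]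
    rw [hu]
    ring
  · intro hE
    by_contra hcon
    obtain ⟨x, hx1, hx2, hx3⟩ := exists_crit hw E (by
      intro u hu huE
      apply hcon
      refine ⟨fun j => -1 / (u - w j), ?_, ?_⟩
      · intro j
        apply inv_im_pos
        simpa using hu
      · intro j
        have h3 : u - w j ≠ 0 := by
          intro h0
          have := congrArg Complex.im h0
          simp at this
          exact hu.ne' this
        have h4 : (E : ℂ) - w j + ∑ k, ((1 : ℝ) : ℂ) * (-1 / (u - w k)) = u - w j := by
          have h5 : ∑ k, ((1 : ℝ) : ℂ) * (-1 / (u - w k)) = -∑ k, 1 / (u - w k) := by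
            rw [← Finset.sum_neg_distrib]
            apply Finset.sum_congr rfl
            intro k _
            push_cast
            ring
          rw [h5, ← huE, phC]
          ring
        rw [h4]
        field_simp
        ring)
    exact hE x ⟨hx1, hx3⟩ hx2

lemma card_image (S : Set ℝ) : Nat.card (ConnectedComponents ((fun x : ℝ => (x : ℂ)) '' S)) =
    Nat.card (ConnectedComponents S) := by
  have he : Topology.IsEmbedding (fun x : ℝ => (x : ℂ)) := Complex.isometry_ofReal.isEmbedding
  let h : S ≃ₜ ((fun x : ℝ => (x : ℂ)) '' S) := he.homeomorphImage S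
  have hm : ∀ {X Y : Type} [TopologicalSpace X] [TopologicalSpace Y] (g : X ≃ₜ Y),
      ConnectedComponents X ≃ ConnectedComponents Y := by
    intro X Y _ _ g
    exact
      { toFun := g.continuous.connectedComponentsMap
        invFun := g.symm.continuous.connectedComponentsMap
        left_inv := by
          intro x
          obtain ⟨x, rfl⟩ := ConnectedComponents.surjective_coe x
          show ConnectedComponents.mk (g.symm (g x)) = _
          rw [g.symm_apply_apply]
        right_inv := by
          intro x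
          obtain ⟨x, rfl⟩ := ConnectedComponents.surjective_coe x
          show ConnectedComponents.mk (g (g.symm x)) = _
          rw [g.apply_symm_apply] }
  exact (Nat.card_congr (hm h)).symm

end Pool.Agent.KS6_57.CU
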